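import Pool.Agent.U281.LU.Off3

/-!
The mass of the normalised vector `(H - z)⁻¹ δ_x` in a finite set.
-/

set_option autoImplicit false

namespace Pool.Agent.U281.LU

open MeasureTheory Filter Pool.Agent.W792.LL Pool.Agent.W792.WA Pool.Agent.U281.GEN
  Pool.Agent.W19.WAPsi Pool.Agent.U281.LAP
open scoped Topology ENNReal

noncomputable section

variable {d : ℕ}

theorem Gr_im (K : C(UnitAddTorus (Fin d), ℝ)) (lam : ℝ) (ω : (Fin d → ℤ) → ℝ) {z : ℂ}
    (hz : 0 < z.im) (x : Fin d → ℤ) :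
    z.im * ‖Gv K (fun y => lam * ω y) z (dl x)‖ ^ 2 = (Gr K lam ω z x x).im :=
  im_norm K _ hz x

theorem Gr_im_pos (K : C(UnitAddTorus (Fin d), ℝ)) (lam : ℝ) (ω : (Fin d → ℤ) → ℝ) {z : ℂ}
    (hz : 0 < z.im) (x : Fin d → ℤ) : 0 < (Gr K lam ω z x x).im := by
  rw [← Gr_im K lam ω hz x]
  have h : Gv K (fun y => lam * ω y) z (dl x) ≠ 0 := by
    intro h0
    have h1 := isW_Gv K (fun y => lam * ω y) hz (dl x)
    rw [h0] at h1
    have h2 := h1 x
    simp [dl_at] at h2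
  have h3 : 0 < ‖Gv K (fun y => lam * ω y) z (dl x)‖ := norm_pos_iff.2 h
  positivity

/-- The mass at the site `y` of the normalised vector `(H - z)⁻¹ δ_x`. -/
def ms (K : C(UnitAddTorus (Fin d), ℝ)) (lam : ℝ) (ω : (Fin d → ℤ) → ℝ) (z : ℂ)
    (x y : Fin d → ℤ) : ℝ := z.im * ‖Gr K lam ω z x y‖ ^ 2 / (Gr K lam ω z x x).im

theorem ms_sum (K : C(UnitAddTorus (Fin d), ℝ)) (lam : ℝ) (ω : (Fin d → ℤ) → ℝ) {z : ℂ}
    (hz : 0 < z.im) (x : Fin d → ℤ) : HasSum (fun y => ms K lam ω z x y) 1 := by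
  have h1 : HasSum (fun y => ‖Gr K lam ω z x y‖ ^ 2)
      (‖Gv K (fun y => lam * ω y) z (dl x)‖ ^ 2) := by
    have h := lp.hasSum_norm (p := 2) (by norm_num) (Gv K (fun y => lam * ω y) z (dl x))
    simp only [ENNReal.toReal_ofNat, Real.rpow_ofNat] at h
    exact h
  have h2 := (h1.mul_left z.im).div_const ((Gr K lam ω z x x).im)
  rw [Gr_im K lam ω hz x, div_self (Gr_im_pos K lam ω hz x).ne'] at h2
  exact h2

variable {K : C(UnitAddTorus (Fin d), ℝ)} {lam : ℝ} {ν : Measure ℝ} [IsProbabilityMeasure ν]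
  {a b η₀ : ℝ} {C : ℕ → ℝ} {θ : ℕ → ℝ → ℝ}

/-- The constant. -/
def cW (η₀ D : ℝ) (C : ℕ → ℝ) : ℝ := (cO η₀ C 4 + D ^ 2 * (1 + 8 * C 3)) / 2

/-- The expected mass in a finite set. -/
theorem mass_le (h : FullC K lam ν a b η₀ C θ) (hC : ∀ p, 0 ≤ C p) {W D : ℝ}
    (hW : ν (Set.Icc (-W) W)ᶜ = 0) (hD : 1 + (lam * W) ^ 2 ≤ D) (x : Fin d → ℤ)
    (A : Finset (Fin d → ℤ)) {z : ℂ} (hz : z ∈ St a b η₀) :
    Integrable (fun ω => ∑ y ∈ A, ms K lam ω z x y) (Pn ν (Fin d → ℤ)) ∧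
      ∫ ω, ∑ y ∈ A, ms K lam ω z x y ∂(Pn ν (Fin d → ℤ))
        ≤ cW η₀ D C * A.card * z.im * Lg η₀ z.im ^ 2 := by
  have hz2 : 0 < z.im := hz.2.2.1
  have hL := Lg_ge hz2 hz.2.2.2
  obtain ⟨L, hLd⟩ : ∃ L, L = Lg η₀ z.im := ⟨_, rfl⟩
  rw [← hLd] at hL ⊢
  have hL0 : 0 < L := by linarith
  have hD0 : 0 ≤ D := by
    have : 0 ≤ (lam * W) ^ 2 := sq_nonneg _
    linarith
  obtain ⟨X, hX⟩ : ∃ X : ((Fin d → ℤ) → ℝ) → ℝ,
      X = fun ω => (1 + (lam * ω x) ^ 2) * (Gr K lam ω z x x).im := ⟨_, rfl⟩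
  have hXm : Measurable X := by
    rw [hX]
    exact (((measurable_pi_apply x).const_mul lam).pow_const 2 |>.const_add 1).mul
      (Complex.measurable_im.comp (Gr_meas K lam hz2 x x))
  have hX0 : ∀ ω, 0 < X ω := by
    intro ω
    rw [hX]
    have := Gr_im_pos K lam ω hz2 x
    simp only
    positivity
  have hneg := neg_mom (P := Pn ν (Fin d → ℤ)) hXm hX0 (hC 3) fun t ht => by
    rw [hX]
    exact h.small 3 (by norm_num) x z hz t ht
  have hi2 : Integrable (fun ω => 1 / X ω ^ 2) (Pn ν (Fin d → ℤ)) := by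
    refine (lintegral_ofReal_ne_top_iff_integrable
      ((hXm.pow_const 2).const_div 1).aestronglyMeasurable
      (ae_of_all _ fun ω => by have := hX0 ω; positivity)).1
      (ne_top_of_le_ne_top ENNReal.ofReal_ne_top hneg)
  have hb2 : ∫ ω, 1 / X ω ^ 2 ∂(Pn ν (Fin d → ℤ)) ≤ 1 + 8 * C 3 := by
    rw [integral_eq_lintegral_of_nonneg_ae (ae_of_all _ fun ω => by have := hX0 ω; positivity)
      ((hXm.pow_const 2).const_div 1).aestronglyMeasurable]
    have h6 := ENNReal.toReal_mono ENNReal.ofReal_ne_top hneg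
    rwa [ENNReal.toReal_ofReal (by have := hC 3; positivity)] at h6
  have hsup : ∀ᵐ ω ∂(Pn ν (Fin d → ℤ)), |ω x| ≤ W := by
    have hmp : (Pn ν (Fin d → ℤ)).map (fun ω => ω x) = ν :=
      (measurePreserving_eval_infinitePi (fun _ : Fin d → ℤ => ν) x).map_eq
    have h1 : ∀ᵐ t ∂((Pn ν (Fin d → ℤ)).map (fun ω => ω x)), t ∈ Set.Icc (-W) W := by
      rw [hmp]
      exact hW
    have h2 := ae_of_ae_map (measurable_pi_apply x).aemeasurable h1
    filter_upwards [h2] with ω hω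
    exact abs_le.2 hω
  have hy : ∀ y : Fin d → ℤ, Integrable (fun ω => ms K lam ω z x y) (Pn ν (Fin d → ℤ)) ∧
      ∫ ω, ms K lam ω z x y ∂(Pn ν (Fin d → ℤ)) ≤ cW η₀ D C * z.im * L ^ 2 := by
    intro y
    obtain ⟨i4, b4⟩ := off_mom h hC (q := 4) (by norm_num) x y hz
    rw [← hLd] at b4
    have hgm : Measurable fun ω : (Fin d → ℤ) → ℝ => ms K lam ω z x y := by
      unfold ms
      exact (((Gr_meas K lam hz2 x y).norm.pow_const 2).const_mul _).div
        (Complex.measurable_im.comp (Gr_meas K lam hz2 x x))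
    have iF : Integrable (fun ω => z.im * ((‖Gr K lam ω z x y‖ ^ 4 * (1 / L ^ 2)
        + L ^ 2 * (D ^ 2 * (1 / X ω ^ 2))) / 2)) (Pn ν (Fin d → ℤ)) :=
      (((i4.mul_const _).add ((hi2.const_mul _).const_mul _)).div_const 2).const_mul _
    have hle : ∀ᵐ ω ∂(Pn ν (Fin d → ℤ)), ms K lam ω z x y ≤ z.im * ((‖Gr K lam ω z x y‖ ^ 4
        * (1 / L ^ 2) + L ^ 2 * (D ^ 2 * (1 / X ω ^ 2))) / 2) := by
      filter_upwards [hsup] with ω hω
      have hG0 := Gr_im_pos K lam ω hz2 x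
      have hX1 := hX0 ω
      obtain ⟨u, hu⟩ : ∃ u, u = ‖Gr K lam ω z x y‖ ^ 2 := ⟨_, rfl⟩
      obtain ⟨w, hw⟩ : ∃ w, w = 1 / (Gr K lam ω z x x).im := ⟨_, rfl⟩
      have hw0 : 0 ≤ w := by rw [hw]; positivity
      have hwle : w ≤ D * (1 / X ω) := by
        rw [hw, hX]
        have k1 : 1 + (lam * ω x) ^ 2 ≤ D := by
          refine le_trans ?_ hD
          have : (lam * ω x) ^ 2 ≤ (lam * W) ^ 2 := by
            rw [mul_pow, mul_pow]
            have : ω x ^ 2 ≤ W ^ 2 := by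
              rw [← sq_abs (ω x)]
              exact pow_le_pow_left₀ (abs_nonneg _) hω 2
            gcongr
          linarith
        have k2 : 0 < 1 + (lam * ω x) ^ 2 := by positivity
        simp only
        rw [mul_one_div, div_le_div_iff₀ hG0 (by positivity)]
        nlinarith
      have e1 : ms K lam ω z x y = z.im * (u * w) := by
        unfold ms
        rw [hu, hw]
        ring
      have e2 : ‖Gr K lam ω z x y‖ ^ 4 = u ^ 2 := by rw [hu]; ring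
      rw [e1, e2]
      apply mul_le_mul_of_nonneg_left _ hz2.le
      have hw2 : w ^ 2 ≤ D ^ 2 * (1 / X ω ^ 2) := by
        calc w ^ 2 ≤ (D * (1 / X ω)) ^ 2 := pow_le_pow_left₀ hw0 hwle 2
          _ = _ := by rw [mul_pow]; ring
      have k3 : L ^ 2 * w ^ 2 ≤ L ^ 2 * (D ^ 2 * (1 / X ω ^ 2)) :=
        mul_le_mul_of_nonneg_left hw2 (by positivity)
      have k4 : 2 * (u * w) ≤ u ^ 2 * (1 / L ^ 2) + L ^ 2 * w ^ 2 := by
        have := sq_nonneg (u * (1 / L) - L * w)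
        have e3 : u * (1 / L) * (L * w) = u * w := by field_simp
        have e4 : (u * (1 / L)) ^ 2 = u ^ 2 * (1 / L ^ 2) := by field_simp
        nlinarith
      linarith
    have hnn : ∀ ω, 0 ≤ ms K lam ω z x y := by
      intro ω
      have := Gr_im_pos K lam ω hz2 x
      unfold ms
      positivity
    have i0 : Integrable (fun ω => ms K lam ω z x y) (Pn ν (Fin d → ℤ)) := by
      refine iF.mono' hgm.aestronglyMeasurable ?_
      filter_upwards [hle] with ω hω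
      rw [Real.norm_of_nonneg (hnn ω)]
      exact hω
    refine ⟨i0, ?_⟩
    calc ∫ ω, ms K lam ω z x y ∂(Pn ν (Fin d → ℤ))
        ≤ ∫ ω, z.im * ((‖Gr K lam ω z x y‖ ^ 4 * (1 / L ^ 2)
          + L ^ 2 * (D ^ 2 * (1 / X ω ^ 2))) / 2) ∂(Pn ν (Fin d → ℤ)) :=
          integral_mono_ae i0 iF hle
      _ = z.im * (((∫ ω, ‖Gr K lam ω z x y‖ ^ 4 ∂(Pn ν (Fin d → ℤ))) * (1 / L ^ 2)
          + L ^ 2 * (D ^ 2 * ∫ ω, 1 / X ω ^ 2 ∂(Pn ν (Fin d → ℤ)))) / 2) := by
          rw [integral_const_mul, integral_div, integral_add (i4.mul_const _)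
            ((hi2.const_mul _).const_mul _), integral_mul_const, integral_const_mul,
            integral_const_mul]
      _ ≤ z.im * (((cO η₀ C 4 * L ^ 4) * (1 / L ^ 2)
          + L ^ 2 * (D ^ 2 * (1 + 8 * C 3))) / 2) := by gcongr
      _ = cW η₀ D C * z.im * L ^ 2 := by
          unfold cW
          field_simp
  refine ⟨integrable_finsetSum _ fun y _ => (hy y).1, ?_⟩
  rw [integral_finsetSum _ fun y _ => (hy y).1]
  calc ∑ y ∈ A, ∫ ω, ms K lam ω z x y ∂(Pn ν (Fin d → ℤ))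
      ≤ ∑ _y ∈ A, cW η₀ D C * z.im * L ^ 2 := Finset.sum_le_sum fun y _ => (hy y).2
    _ = _ := by
        rw [Finset.sum_const, nsmul_eq_mul]
        ring

end

end Pool.Agent.U281.LU
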