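import Pool.Agent.U281.LAP.Gr

/-!
Uniform versions, with explicit constants, of the estimates for a chain.
-/

set_option autoImplicit false

namespace Pool.Agent.U281.LU

open MeasureTheory Filter Pool.Agent.W792.LL Pool.Agent.W792.WA Pool.Agent.W792.WA.Ch
  Pool.Agent.W792.WA.ChK Pool.Agent.U281.LAP
open scoped Topology

noncomputable section

/-- Constant of the moments. -/
def cM (Q : ℕ → ℝ) (p : ℕ) : ℝ := 2 ^ p * (2 ^ p * cn p + (1 / (1 - Q p)) ^ p)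

/-- Constant of the small values. -/
def cS (Q : ℕ → ℝ) (p : ℕ) : ℝ := 1 + (2 / ((1 - Q p ^ 2) / 4)) ^ p

/-- Modulus of continuity of the fixed points at the stages. -/
def Mod (d : ℕ) (ν : Measure ℝ) [IsProbabilityMeasure ν] (ρ : ℕ → Measure ℝ)
    (L : ℕ → C(UnitAddTorus (Fin d), ℝ)) (Θ : ℕ → ℝ → ℝ) : Prop :=
  ∀ (n : ℕ) (w : ℝ), 0 < w → ∀ z ∈ Zs d, ∀ z' ∈ Zs d, ‖z - z'‖ ≤ Θ n w →
    ∀ s s', IsFix ν (ρ n) (wz (L n) z) s → IsFix ν (ρ n) (wz (L n) z') s' →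
      ‖UU (ρ n) (wz (L n) z) s - UU (ρ n) (wz (L n) z') s'‖ ≤ w

section

variable {ν : Measure ℝ} [IsProbabilityMeasure ν] {d : ℕ} {K : C(UnitAddTorus (Fin d), ℝ)}
  (D : CEK ν K)

/-- **Moments.** -/
theorem momU (hX : S_CX) (hUU : S_UUC) (hL : S_SCL) (hZ : S_ZF) (hCay : S_CAY) (hM : S_MZP)
    (hU : S_UNI) (hS : Sm D) {p : ℕ} (hp1 : 1 ≤ p)  {z : ℂ}
    (hz : z ∈ Zs d) : ∫ v, ‖D.Zi z v‖ ^ p ∂(Pn ν (Fin d → ℤ)) ≤ cM D.q p := by
  unfold cM
  obtain ⟨C, hC0, hC⟩ := Zi_bd D hX hUU hL hZ hCay hU hz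
  have t1 := tri (ν := ν) (Zi_meas D hX hUU hL hM hU hz) (Zn_meas D hM hU p hz)
    (H := fun _ => 0) measurable_const hC (Zn_bd D hZ hCay hU p hz) (C3 := 0)
    (fun _ => by simp) p
  simp only [sub_zero] at t1
  refine t1.trans ?_
  gcongr
  · exact close_p D hX hUU hL hZ hCay hM hU hS hp1 (by omega) hz
  · have i1 := int_pow (ν := ν) (Zn_meas D hM hU p hz) (Zn_bd D hZ hCay hU p hz) p
    calc ∫ v, ‖D.Zn p z v‖ ^ p ∂(Pn ν (Fin d → ℤ))
        ≤ ∫ _, (1 / (1 - D.q p)) ^ p ∂(Pn ν (Fin d → ℤ)) := by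
          refine integral_mono i1 (integrable_const _) fun v => ?_
          exact pow_le_pow_left₀ (norm_nonneg _) (Zn_bd D hZ hCay hU p hz v) p
      _ = _ := by simp

/-- **Small values of the imaginary part are very rare.** -/
theorem smallU (hX : S_CX) (hUU : S_UUC) (hL : S_SCL) (hZ : S_ZF) (hCay : S_CAY)
    (hM : S_MZP) (hU : S_UNI) (hS : Sm D) (p : ℕ) {η E : ℝ}
    (hz : (⟨E, η⟩ : ℂ) ∈ Zs d) {t : ℝ} (ht : 0 < t) :
      ((Pn ν (Fin d → ℤ)) {v | PfK (kg K D.fI) η E v < t}).toReal ≤ cS D.q p * t ^ p := by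
  have hgp := gn_pos D p
  change _ ≤ (1 + (2 / gn D p) ^ p) * t ^ p
  have hmono : ∀ s : ℝ, t ≤ s → ((Pn ν (Fin d → ℤ)) {v | PfK (kg K D.fI) η E v < t}).toReal
      ≤ ((Pn ν (Fin d → ℤ)) {v | PfK (kg K D.fI) η E v < s}).toReal := fun s hs =>
    ENNReal.toReal_mono (measure_ne_top _ _) (measure_mono fun v hv => lt_of_lt_of_le hv hs)
  have htp : 0 < t ^ p := by positivity
  have hcp : 0 < (2 / gn D p) ^ p := by positivity
  rcases le_or_gt (gn D p / 2) t with h | h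
  · have h1 : ((Pn ν (Fin d → ℤ)) {v | PfK (kg K D.fI) η E v < t}).toReal ≤ 1 := by
      have := prob_le_one (μ := Pn ν (Fin d → ℤ)) (s := {v | PfK (kg K D.fI) η E v < t})
      exact (ENNReal.toReal_mono ENNReal.one_ne_top this).trans (by simp)
    refine h1.trans ?_
    have h2 : 1 ≤ (2 / gn D p) ^ p * t ^ p := by
      rw [← mul_pow]
      apply one_le_pow₀
      rw [div_mul_eq_mul_div, le_div_iff₀ hgp]
      linarith
    nlinarith
  · by_cases hex : ∃ n, p ≤ n ∧ gn D (n + 1) / 2 ≤ t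
    · classical
      set n := Nat.find hex with hn
      obtain ⟨hn1, hn2⟩ := Nat.find_spec hex
      have hlt : t < gn D n / 2 := by
        rcases Nat.eq_or_lt_of_le hn1 with h1 | h1
        · change p = n at h1
          rw [← h1]; exact h
        · have h2 := Nat.find_min hex (m := n - 1) (by omega)
          push Not at h2
          have h3 := h2 (by omega)
          have h4 : n - 1 + 1 = n := by omega
          rwa [h4] at h3
      have hg := gn_pos D (n + 1)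
      calc ((Pn ν (Fin d → ℤ)) {v | PfK (kg K D.fI) η E v < t}).toReal
          ≤ ((Pn ν (Fin d → ℤ)) {v | PfK (kg K D.fI) η E v < gn D n / 2}).toReal :=
            hmono _ hlt.le
        _ ≤ (gn D (n + 1) / 2) ^ p :=
            (rare D hX hUU hL hZ hCay hM hU hS (by omega) hz).1
        _ ≤ t ^ p := by gcongr
        _ ≤ _ := by nlinarith
    · push Not at hex
      have h0 : ((Pn ν (Fin d → ℤ)) {v | PfK (kg K D.fI) η E v < t}).toReal ≤ 0 := by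
        have hlim := tendsto_pow_atTop_nhds_zero_of_lt_one (by norm_num : (0 : ℝ) ≤ 1 / 8)
          (by norm_num : (1 : ℝ) / 8 < 1)
        refine ge_of_tendsto hlim ?_
        filter_upwards [eventually_ge_atTop (p + 1)] with n hn
        have h1 := hex (n - 1) (by omega)
        have h4 : n - 1 + 1 = n := by omega
        rw [h4] at h1
        exact (hmono _ h1.le).trans (rare D hX hUU hL hZ hCay hM hU hS (p := p) (by omega) hz).2
      refine h0.trans ?_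
      positivity


end

/-- **Uniform continuity up to the real axis.** -/
theorem ucU (hX : S_CX) (hUU : S_UUC) (hL : S_SCL) (hZ : S_ZF) (hCay : S_CAY) (hM : S_MZP)
    (hU : S_UNI) {Q : ℕ → ℝ} (hQ1 : ∀ n, Q n < 1) {Θ : ℕ → ℝ → ℝ}
    (hΘ : ∀ n w, 0 < w → 0 < Θ n w) {p : ℕ} (hp1 : 1 ≤ p) {e : ℝ} (he : 0 < e) :
    ∃ θ : ℝ, 0 < θ ∧ ∀ (ν : Measure ℝ) [IsProbabilityMeasure ν] (d : ℕ)
      (K : C(UnitAddTorus (Fin d), ℝ)) (D : CEK ν K), Sm D → D.q = Q →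
      Mod d ν D.ρ (fun n => kg K (D.f n)) Θ → ∀ z ∈ Zs d, ∀ z' ∈ Zs d, ‖z - z'‖ ≤ θ →
      ∫ v, ‖D.Zi z v - D.Zi z' v‖ ^ p ∂(Pn ν (Fin d → ℤ)) ≤ e := by
  have hp0 : p ≠ 0 := by omega
  have hlim : Tendsto (fun n : ℕ => 2 ^ p * (2 ^ p * ((1 / 2 : ℝ) ^ n)
      + 2 ^ p * (2 ^ p * ((1 / 2 : ℝ) ^ n)))) atTop (𝓝 0) := by
    have h := tendsto_pow_atTop_nhds_zero_of_lt_one (by norm_num : (0 : ℝ) ≤ 1 / 2)
      (by norm_num : (1 : ℝ) / 2 < 1)
    have h1 := h.const_mul ((2 : ℝ) ^ p)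
    have h2 := (h1.add (h1.const_mul ((2 : ℝ) ^ p))).const_mul ((2 : ℝ) ^ p)
    simpa using h2
  obtain ⟨n₀, hn₀⟩ := (hlim.eventually_lt_const (show (0 : ℝ) < e / 2 by positivity)).exists_forall_of_atTop
  set n := max n₀ p with hn
  have hnp : p ≤ n + 1 := by omega
  have h1 := hn₀ n (le_max_left _ _)
  have hq : 0 < 1 - Q n := by linarith [hQ1 n]
  -- choose the accuracy at stage n
  obtain ⟨w, hw0, hw1⟩ : ∃ w : ℝ, 0 < w ∧ 2 ^ p * (2 ^ p * (w / (1 - Q n) ^ 2) ^ p) ≤ e / 2 := by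
    have hl : Tendsto (fun w : ℝ => 2 ^ p * (2 ^ p * (w / (1 - Q n) ^ 2) ^ p)) (𝓝 0) (𝓝 0) := by
      have : Continuous fun w : ℝ => 2 ^ p * (2 ^ p * (w / (1 - Q n) ^ 2) ^ p) := by fun_prop
      have h2 := this.tendsto 0
      simpa [zero_pow hp0] using h2
    have h2 := (hl.eventually_lt_const (show (0 : ℝ) < e / 2 by positivity))
    obtain ⟨r, hr, hr2⟩ := Metric.eventually_nhds_iff.1 h2
    refine ⟨r / 2, by positivity, (hr2 ?_).le⟩
    rw [Real.dist_eq, sub_zero, abs_of_pos (by positivity)]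
    linarith
  refine ⟨Θ n w, hΘ n w hw0, fun ν _ d K D hS hDQ hMod z hz z' hz' hzz => ?_⟩
  have i0 := D.hρ1 n
  rw [← hDQ] at hq hw1
  obtain ⟨C, hC0, hC⟩ := Zi_bd D hX hUU hL hZ hCay hU hz
  obtain ⟨C', hC0', hC'⟩ := Zi_bd D hX hUU hL hZ hCay hU hz'
  have mz := Zi_meas D hX hUU hL hM hU hz
  have mz' := Zi_meas D hX hUU hL hM hU hz'
  have mn := Zn_meas D hM hU n hz
  have mn' := Zn_meas D hM hU n hz'
  have bn1 := Zn_bd D hZ hCay hU n hz
  have bn2 := Zn_bd D hZ hCay hU n hz'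
  have t1 := tri (ν := ν) mz mn mz' hC bn1 hC' p
  have t2 := tri (ν := ν) mn mn' mz' bn1 bn2 hC' p
  have c1 := close_p D hX hUU hL hZ hCay hM hU hS hp1 hnp hz
  have c2 := close_p D hX hUU hL hZ hCay hM hU hS hp1 hnp hz'
  have c2' : ∫ v, ‖D.Zn n z' v - D.Zi z' v‖ ^ p ∂(Pn ν (Fin d → ℤ)) ≤ 2 ^ p * cn n := by
    refine le_trans (le_of_eq ?_) c2
    congr 1
    funext v
    rw [norm_sub_rev]
  have c3 : ∫ v, ‖D.Zn n z v - D.Zn n z' v‖ ^ p ∂(Pn ν (Fin d → ℤ))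
      ≤ (w / (1 - D.q n) ^ 2) ^ p := by
    have hω := hMod n w hw0 _ hz _ hz' hzz _ _ (D.sol_fix hU n hz) (D.sol_fix hU n hz')
    have i1 := int_pow_sub (ν := ν) mn mn' bn1 bn2 p
    calc ∫ v, ‖D.Zn n z v - D.Zn n z' v‖ ^ p ∂(Pn ν (Fin d → ℤ))
        ≤ ∫ _, (w / (1 - D.q n) ^ 2) ^ p ∂(Pn ν (Fin d → ℤ)) := by
          refine integral_mono i1 (integrable_const _) fun v => ?_
          refine pow_le_pow_left₀ (norm_nonneg _) ?_ p
          refine (Zf_lip hZ hCay (D.hq0 n) (D.hq1 n) (D.Un_le hU n hz) (D.Un_le hU n hz') v).trans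
            ?_
          gcongr
          exact hω
      _ = _ := by simp
  have hcn := cn_le n
  calc ∫ v, ‖D.Zi z v - D.Zi z' v‖ ^ p ∂(Pn ν (Fin d → ℤ))
      ≤ 2 ^ p * (2 ^ p * cn n + 2 ^ p * ((w / (1 - D.q n) ^ 2) ^ p + 2 ^ p * cn n)) := by
        refine t1.trans ?_
        gcongr
        refine t2.trans ?_
        gcongr
    _ ≤ 2 ^ p * (2 ^ p * (1 / 2) ^ n + 2 ^ p * ((w / (1 - D.q n) ^ 2) ^ p
          + 2 ^ p * (1 / 2) ^ n)) := by gcongr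
    _ = 2 ^ p * (2 ^ p * (1 / 2) ^ n + 2 ^ p * (2 ^ p * (1 / 2) ^ n))
          + 2 ^ p * (2 ^ p * (w / (1 - D.q n) ^ 2) ^ p) := by ring
    _ ≤ e := by linarith


end

end Pool.Agent.U281.LU
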