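import Pool.Agent.U281.LU.Abs
import Pool.Agent.U281.NP.Chk

/-!
From a uniform gap for a totally bounded family of laws to a uniform limiting absorption
principle, with one function and one set of constants for all laws of the family.
-/

set_option autoImplicit false

namespace Pool.Agent.U281.LU

open MeasureTheory Filter Pool.Agent.W792.LL Pool.Agent.W792.WA Pool.Agent.W792.WA.Ch
  Pool.Agent.W792.WA.ChK Pool.Agent.U281.LAP Pool.Agent.N659.HB Pool.Agent.U281.NP.Chk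
open scoped Topology

noncomputable section

/-- The estimates with explicit constants. -/
def LapC {d : ℕ} (K : C(UnitAddTorus (Fin d), ℝ)) (ν : Measure ℝ) [IsProbabilityMeasure ν]
    (C : ℕ → ℝ) (θ : ℕ → ℝ → ℝ) : Prop :=
  ∀ p : ℕ, 1 ≤ p →
    (∀ z ∈ Zs d,
      ∫ v, ‖Zf (us (Measure.dirac 0) 1 z K) (fun x => cay (v x))‖ ^ p ∂(Pn ν (Fin d → ℤ)) ≤ C p) ∧
    (∀ e : ℝ, 0 < e → ∀ z ∈ Zs d, ∀ z' ∈ Zs d, ‖z - z'‖ ≤ θ p e →
      ∫ v, ‖Zf (us (Measure.dirac 0) 1 z K) (fun x => cay (v x))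
        - Zf (us (Measure.dirac 0) 1 z' K) (fun x => cay (v x))‖ ^ p ∂(Pn ν (Fin d → ℤ)) ≤ e) ∧
    ∀ η E : ℝ, (⟨E, η⟩ : ℂ) ∈ Zs d → ∀ t : ℝ, 0 < t →
      ((Pn ν (Fin d → ℤ)) {v | PfK K η E v < t}).toReal ≤ C p * t ^ p

theorem LapC_congr {d : ℕ} {K : C(UnitAddTorus (Fin d), ℝ)} {ν ν' : Measure ℝ}
    [IsProbabilityMeasure ν] [IsProbabilityMeasure ν'] {C : ℕ → ℝ} {θ : ℕ → ℝ → ℝ}
    (h : ν = ν') (hG : LapC K ν C θ) : LapC K ν' C θ := by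
  subst h
  exact hG

theorem cM_nonneg {Q : ℕ → ℝ} (h1 : ∀ n, Q n < 1) (p : ℕ) : 0 ≤ cM Q p := by
  have := h1 p
  have h2 : 0 < 1 - Q p := by linarith
  have := cn_pos p
  unfold cM
  positivity

theorem cS_nonneg {Q : ℕ → ℝ} (h0 : ∀ n, 0 ≤ Q n) (h1 : ∀ n, Q n < 1) (p : ℕ) : 0 ≤ cS Q p := by
  have h2 := h1 p
  have h3 := h0 p
  have h4 : 0 < 1 - Q p ^ 2 := by nlinarith
  unfold cS
  positivity

/-- The modulus for all chains with given constants. -/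
theorem exists_theta (hX : S_CX) (hUU : S_UUC) (hL : S_SCL) (hZ : S_ZF) (hCay : S_CAY)
    (hM : S_MZP) (hU : S_UNI) {Q : ℕ → ℝ} (hQ1 : ∀ n, Q n < 1) {Θ : ℕ → ℝ → ℝ}
    (hΘ : ∀ n w, 0 < w → 0 < Θ n w) : ∃ θ : ℕ → ℝ → ℝ, (∀ p e, 0 < θ p e) ∧
      ∀ p : ℕ, 1 ≤ p → ∀ e : ℝ, 0 < e → ∀ (ν : Measure ℝ) [IsProbabilityMeasure ν] (d : ℕ)
      (K : C(UnitAddTorus (Fin d), ℝ)) (D : CEK ν K), Sm D → D.q = Q →
      Mod d ν D.ρ (fun n => kg K (D.f n)) Θ → ∀ z ∈ Zs d, ∀ z' ∈ Zs d, ‖z - z'‖ ≤ θ p e →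
      ∫ v, ‖D.Zi z v - D.Zi z' v‖ ^ p ∂(Pn ν (Fin d → ℤ)) ≤ e := by
  classical
  have key : ∀ (p : ℕ) (e : ℝ), ∃ θ : ℝ, 0 < θ ∧ (1 ≤ p → 0 < e →
      ∀ (ν : Measure ℝ) [IsProbabilityMeasure ν] (d : ℕ)
      (K : C(UnitAddTorus (Fin d), ℝ)) (D : CEK ν K), Sm D → D.q = Q →
      Mod d ν D.ρ (fun n => kg K (D.f n)) Θ → ∀ z ∈ Zs d, ∀ z' ∈ Zs d, ‖z - z'‖ ≤ θ →
      ∫ v, ‖D.Zi z v - D.Zi z' v‖ ^ p ∂(Pn ν (Fin d → ℤ)) ≤ e) := by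
    intro p e
    by_cases h : 1 ≤ p ∧ 0 < e
    · obtain ⟨θ, h1, h2⟩ := ucU hX hUU hL hZ hCay hM hU hQ1 hΘ h.1 h.2
      exact ⟨θ, h1, fun _ _ => h2⟩
    · exact ⟨1, one_pos, fun h1 h2 => absurd ⟨h1, h2⟩ h⟩
  choose θ h1 h2 using key
  exact ⟨θ, h1, fun p hp e he => h2 p e hp he⟩

/-- Summary for one chain. -/
theorem lapC_of (hX : S_CX) (hUU : S_UUC) (hL : S_SCL) (hZ : S_ZF) (hCay : S_CAY)
    (hM : S_MZP) (hU : S_UNI) {ν : Measure ℝ} [IsProbabilityMeasure ν] {d : ℕ}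
    {K : C(UnitAddTorus (Fin d), ℝ)} (D : CEK ν K) (hS : Sm D) {θ : ℕ → ℝ → ℝ}
    (hθ : ∀ p : ℕ, 1 ≤ p → ∀ e : ℝ, 0 < e → ∀ z ∈ Zs d, ∀ z' ∈ Zs d, ‖z - z'‖ ≤ θ p e →
      ∫ v, ‖D.Zi z v - D.Zi z' v‖ ^ p ∂(Pn ν (Fin d → ℤ)) ≤ e) :
    LapC (kg K D.fI) ν (fun p => cM D.q p + cS D.q p) θ := by
  intro p hp
  have a1 := cM_nonneg D.hq1 p
  have a2 := cS_nonneg D.hq0 D.hq1 p
  refine ⟨fun z hz => ?_, hθ p hp, fun η E hz t ht => ?_⟩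
  · exact (momU D hX hUU hL hZ hCay hM hU hS hp hz).trans (by linarith)
  · refine (smallU D hX hUU hL hZ hCay hM hU hS p hz ht).trans ?_
    have : 0 < t ^ p := by positivity
    nlinarith

/-- The contraction constant can be chosen before the kinetic energy and the law. -/
theorem exists_Qn (hX : S_CX) (hUU : S_UUC) (hG : S_GAIN) (d : ℕ) (ρ : Measure ℝ)
    [i0 : IsProbabilityMeasure ρ] (T B σ : ℝ) (hρ3 : ρ (Set.Icc (-T) T)ᶜ = 0)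
    (hρ4 : ∀ a b : ℝ, ρ {a, b} < 1) (hσ : 0 < σ) (hB : 4 * d + 1 ≤ B) :
    ∃ Q : ℝ, 0 ≤ Q ∧ Q < 1 ∧ ∀ (K : C(UnitAddTorus (Fin d), ℝ)) (ν : Measure ℝ)
      [IsProbabilityMeasure ν], ‖K‖ ≤ B → GapK ν ρ K σ → CtrK ν ρ K Q := by
  obtain ⟨γ, hγ0, hγ1, hg⟩ := hG ρ T (2 * B) σ hρ3 hρ4 hσ
  refine ⟨√(1 - γ), Real.sqrt_nonneg _, ?_, ?_⟩
  · rw [Real.sqrt_lt' one_pos]
    linarith
  intro K ν _ hKB hgap z hz s hs
  have hz2 := hz.2.2.1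
  have hzB : ‖z‖ ≤ B := by
    obtain ⟨h1, h2, h3, h4⟩ := hz
    refine (Complex.norm_le_abs_re_add_abs_im z).trans ?_
    rw [abs_of_nonneg h1, abs_of_pos h3]
    linarith
  have hsn : ‖s‖ ≤ 1 - σ := hgap z hz s hs
  have hx : ∀ k, ‖((K k : ℝ) : ℂ) - z‖ ≤ 2 * B ∧ (((K k : ℝ) : ℂ) - z).im ≤ -z.im := by
    intro k
    constructor
    · calc ‖((K k : ℝ) : ℂ) - z‖ ≤ ‖((K k : ℝ) : ℂ)‖ + ‖z‖ := norm_sub_le _ _
        _ ≤ B + B := by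
          rw [Complex.norm_real]
          exact add_le_add ((K.norm_coe_le_norm k).trans hKB) hzB
        _ = _ := by ring
    · simp
  obtain ⟨q, hq0, hq1, hq⟩ := hX.2.2.1 T (2 * B) z.im hz2
  have hfm := (hUU d ρ T q (wz K z) s hρ3
    (hX.2.2.2 d _ z hz2.le) hq0 hq1.le (fun k a ha => hq _ a (hx k).1 (hx k).2
      (abs_le.2 ha)) hs.1 (by
        calc q * ‖s‖ ≤ q * 1 := by gcongr; exact hs.1
          _ < 1 := by linarith)).1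
  rw [ContinuousMap.norm_le _ (Real.sqrt_nonneg _)]
  intro k
  rw [hfm k]
  have h6 := (hg (((K k : ℝ) : ℂ) - z) 0 (s k) (hx k).1 (by linarith [(hx k).2])
    (by simp) ((s.norm_coe_le_norm k).trans hsn)).2
  exact Real.le_sqrt_of_sq_le h6

/-- The main construction. -/
theorem chku (hX : S_CX) (hUU : S_UUC) (hL : S_SCL) (hZ : S_ZF) (hCay : S_CAY)
    (hM : S_MZP) (hU1 : S_UNI) (hU : S_UNI2) (hS : S_STEP2) (hG : S_GAIN) :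
    ∀ (ψ : C(UnitAddCircle, ℝ)), IsSemi ψ → ∀ (d : ℕ) (K : C(UnitAddTorus (Fin d), ℝ)) (𝓧 : Set MX)
    (r σ : ℝ) (ρ : ℕ → Measure ℝ), (∀ n, IsProbabilityMeasure (ρ n)) → 0 < d →
    (∀ X ∈ 𝓧, 0 < vr (qlaw X)) → TB 𝓧 → 0 < r → 0 < σ →
    (∀ n, ρ n = (lev ψ (r * (1 / 16) ^ n)).conv (ρ (n + 1))) →
    (∀ n, ρ n (Set.Icc (-(2 * r * (1 / 16) ^ n)) (2 * r * (1 / 16) ^ n))ᶜ = 0) →
    (∀ (n : ℕ) (a b : ℝ), ρ n {a, b} < 1) →
    (∀ X ∈ 𝓧, ∀ z ∈ Zs d, ∀ s, IsFix (qlaw X) (ρ 0) (wz K z) s → ‖s‖ ≤ 1 - σ) →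
    ∃ f : C(ℝ, ℝ), IsSum ψ (2 * r) f ∧ ∃ (C : ℕ → ℝ) (θ : ℕ → ℝ → ℝ), (∀ p, 0 ≤ C p) ∧
      (∀ p e, 0 < θ p e) ∧ ∀ X ∈ 𝓧, MestK (K + gK f d) (qlaw X) ∧
        LapC (K + gK f d) (qlaw X) C θ := by
  intro ψ hψ d K 𝓧 r σ ρ hρ1 hd hv hTB hr hσ hρ2 hρ3 hρ4 hbase0
  set l : ℕ → ℝ := fun n => r * (1 / 16) ^ n with hl
  set T : ℕ → ℝ := fun n => 2 * r * (1 / 16) ^ n with hT
  have hl0 : ∀ n, 0 < l n := fun n => by simp only [hl]; positivity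
  have hTp : ∀ n, 0 ≤ T n := fun n => by simp only [hT]; positivity
  have hTT : ∀ n, l n + T (n + 1) ≤ T n := by
    intro n
    simp only [hT, hl]
    rw [pow_succ]
    have : 0 < r * (1 / 16 : ℝ) ^ n := by positivity
    linarith
  have hbase : ∀ X ∈ 𝓧, GapK (qlaw X) (ρ 0) (kg K 0) σ := by
    intro X hX z hz s hs
    rw [kg_zero] at hs
    exact hbase0 X hX z hz s hs
  choose Q hQ0 hQ1 hQ using fun n => @exists_Qn hX hUU hG d (ρ n) (hρ1 n) (T n)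
    (‖K‖ + T 0 + 4 * d + 1) (σ / 2) (hρ3 n) (hρ4 n) (by positivity)
    (by linarith [norm_nonneg K, hTp 0])
  set τ : ℕ → ℝ := fun n => min ((1 - Q n ^ 2) / 8)
    (((1 - Q n) * (1 - Q (n + 1)) / 8) ^ ((n + 2) ^ 2)) with hτ
  have hτ0 : ∀ n, 0 < τ n := by
    intro n
    have h0 := hQ0 n
    have h1 := hQ1 n
    have h2 := hQ1 (n + 1)
    refine lt_min ?_ ?_
    · have : Q n ^ 2 < 1 := by nlinarith
      linarith
    · have : 0 < (1 - Q n) * (1 - Q (n + 1)) := mul_pos (by linarith) (by linarith)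
      positivity
  obtain ⟨x, hx⟩ := exists_seq (α := C(ℝ, ℝ) × ℝ)
    (fun n a => InvK 𝓧 K ρ σ n a ∧ (n = 0 → a.1 = 0) ∧ a.2 ≤ τ n)
    (fun n a b => RelK 𝓧 K ψ l ρ n a b) (by
      have := hρ1 0
      obtain ⟨q, hq0, hq1, hq2⟩ := (hU d (ρ 0) (T 0) σ (kg K 0) (hρ3 0) (hρ4 0) hσ).1
      have hq3 : 0 < (1 - q ^ 2) / 8 := by
        have : q ^ 2 < 1 := by nlinarith
        linarith
      have hq4 : (1 - q ^ 2) / 8 ≤ 1 := by nlinarith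
      refine ⟨(0, min ((1 - q ^ 2) / 8) (τ 0)), ⟨?_, lt_min hq3 (hτ0 0),
        (min_le_left _ _).trans hq4, q, hq0, hq1, min_le_left _ _, fun X hX =>
        (hq2 (qlaw X) (hv X hX) (hbase X hX)).2⟩, fun _ => rfl, min_le_right _ _⟩
      have e : σ * (1 / 2 + 1 / 2 ^ (0 + 1)) = σ := by ring
      rw [e]
      exact hbase) (by
      intro n a ha
      obtain ⟨b, ⟨h1, h2, h3, q, hq0, hq1, hq2, hq3⟩, hb1, hb2, hb3⟩ :=
        step_invK hU hS hd hψ hv hTB hl0 hρ1 hρ2 hρ3 hρ4 hσ n a ha.1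
      exact ⟨(b.1, min b.2 (τ (n + 1))), ⟨⟨h1, lt_min h2 (hτ0 _), (min_le_left _ _).trans h3,
        q, hq0, hq1, (min_le_left _ _).trans hq2, hq3⟩, fun h => absurd h (Nat.succ_ne_zero n),
        min_le_right _ _⟩, hb1, (min_le_left _ _).trans hb2, hb3⟩)
  have hMe : ∀ n, ∃ M : ℕ, (x (n + 1)).1 = nx ψ (x n).1 (l n) M := fun n => (hx n).2.1
  choose M hMe using hMe
  let L : LvK ψ := {
    l := l, T := T, f := fun n => (x n).1, M := M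
    hψ := hψ.bound
    hl := hl0
    hT := hTT
    hTp := hTp
    f0 := (hx 0).1.2.1 rfl
    fs := hMe }
  have hT0 : T 0 = 2 * r := by simp [hT]
  have hTt : Tendsto T atTop (𝓝 0) := by
    have h1 := (tendsto_pow_atTop_nhds_zero_of_lt_one (by norm_num : (0 : ℝ) ≤ 1 / 16)
      (by norm_num : (1 : ℝ) / 16 < 1)).const_mul (2 * r)
    rw [mul_zero] at h1
    exact h1
  have hsumle : ∑' j, L.l j ≤ 2 * r := by
    refine Real.tsum_le_of_sum_range_le (fun n => (L.hl n).le) fun m => ?_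
    have h1 := L.sum_l 0 m
    have h2 := L.hTp (0 + m)
    simp only [zero_add] at h1 h2
    have h3 : L.T 0 = 2 * r := hT0
    linarith
  have hfb : ∀ n, ‖kg K (x n).1‖ ≤ ‖K‖ + T 0 + 4 * d + 1 := by
    intro n
    have h1 := kg_le K (fun t => L.f_id n t)
    have h2 := hTp n
    have h3 : L.T 0 - L.T n ≤ T 0 := by
      change T 0 - T n ≤ T 0
      linarith
    have hd0 : (0 : ℝ) ≤ 4 * d := by positivity
    linarith
  have hgapn : ∀ n, ∀ X ∈ 𝓧, GapK (qlaw X) (ρ n) (kg K (x n).1) (σ / 2) := by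
    intro n X hXX z hz s hs
    have h1 := (hx n).1.1.1 X hXX z hz s hs
    have h2 : σ / 2 ≤ σ * (1 / 2 + 1 / 2 ^ (n + 1)) := by
      have : 0 < σ * (1 / 2 ^ (n + 1)) := by positivity
      linarith
    linarith
  -- the modulus of continuity
  have hΘ : ∀ (n : ℕ) (w : ℝ), ∃ t : ℝ, 0 < t ∧ (0 < w → ∀ X ∈ 𝓧,
      ∀ z ∈ Zs d, ∀ z' ∈ Zs d, ‖z - z'‖ ≤ t →
      ∀ s s', IsFix (qlaw X) (ρ n) (wz (kg K (x n).1) z) s →
        IsFix (qlaw X) (ρ n) (wz (kg K (x n).1) z') s' →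
        ‖UU (ρ n) (wz (kg K (x n).1) z) s - UU (ρ n) (wz (kg K (x n).1) z') s'‖ ≤ w) := by
    intro n w
    by_cases hw : 0 < w
    · have := hρ1 n
      obtain ⟨t, ht, ht1⟩ := (hU d (ρ n) (T n) (σ / 2) (kg K (x n).1) (hρ3 n) (hρ4 n)
        (by positivity)).2 w hw
      exact ⟨t, ht, fun _ X hXX z hz z' hz' hzz s s' hs hs' =>
        (ht1 (qlaw X) (hv X hXX) (hgapn n X hXX) z hz z' hz' hzz s s' hs hs').2⟩
    · exact ⟨1, one_pos, fun h => absurd h hw⟩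
  choose Θ hΘ0 hΘ1 using hΘ
  obtain ⟨θ, hθ0, hθ1⟩ := exists_theta hX hUU hL hZ hCay hM hU1 (Q := Q) hQ1
    (Θ := Θ) (fun n w _ => hΘ0 n w)
  refine ⟨L.fI, ⟨L.l, L.M, fun j => (L.hl j).le, L.summable_l, hsumle, fun t => rfl⟩,
    fun p => cM Q p + cS Q p, θ, fun p => add_nonneg (cM_nonneg hQ1 p) (cS_nonneg hQ0 hQ1 p),
    hθ0, ?_⟩
  intro X hXX
  let E : CEK (qlaw X) K := {
    ρ := ρ
    T := T
    σ := σ / 2
    f := fun n => (x n).1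
    fI := L.fI
    B := T 0
    p := fun n => (x n).2
    q := Q
    hv := hv X hXX
    T_anti := L.T_anti
    hTp := hTp
    hT0 := hTt
    hρ1 := hρ1
    hρ3 := hρ3
    hρ4 := hρ4
    hσ := by positivity
    gap := fun n => hgapn n X hXX
    hp := fun n => (hx n).1.1.2.1
    anti := fun n => (hx n).2.2.1
    hq0 := hQ0
    hq1 := hQ1
    hq2 := fun n => (hx n).1.2.2.trans (min_le_left _ _)
    ctr := fun n => hQ n (kg K (x n).1) (qlaw X) (hfb n) (hgapn n X hXX)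
    fI_diff := fun n t => L.fI_diff n t
    fI_id := L.fI_id
    f_id := fun n t => L.f_id n t
    rel := fun n => (hx n).2.2.2 X hXX }
  have hSm : Sm E := fun n => (hx n).1.2.2.trans (min_le_right _ _)
  refine ⟨E.concl hX hUU hL hZ hCay hM hU1, lapC_of hX hUU hL hZ hCay hM hU1 E hSm
    fun p hp e he => hθ1 p hp e he (qlaw X) d K E hSm rfl fun n w hw => hΘ1 n w hw X hXX⟩

end

end Pool.Agent.U281.LU
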