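import Pool.Agent.U281.LU.Nor
import Pool.Agent.U281.NP.All
import Pool.Agent.U281.LAP.Kfy

/-!
Uniform limiting absorption at arbitrary disorder: the final theorem, library form.
-/

set_option autoImplicit false

namespace Pool.Agent.U281.LU

open MeasureTheory Filter Set
open scoped Topology
open Pool.Agent.W792.WA Pool.Agent.W792.LL Pool.Agent.W191.LL UnitAddTorus Pool.Agent.N659.HB
open Pool.Agent.U281.NP.Eqd Pool.Agent.U281.NP

noncomputable section

theorem fin (d : ℕ) (K : C(UnitAddTorus (Fin d), ℝ)) (a b p g κ ε : ℝ) (hd : 0 < d)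
    (hab : a < b) (hp1 : 1 < p) (hp2 : p < 2) (hg0 : 0 ≤ g) (hg : g < (d : ℝ) / 3) (hκ : 0 < κ)
    (hε : 0 < ε) :
    ∃ f : C(ℝ, ℝ), (∫ k : UnitAddTorus (Fin d), |f (lap d k)| ^ p ≤ ε) ∧
      (∀ x : Fin d → ℤ,
        ‖UnitAddTorus.mFourierCoeff (fun k : UnitAddTorus (Fin d) => ((f (lap d k) : ℝ) : ℂ)) x‖
          ≤ ε / (1 + ‖x‖) ^ g) ∧
      ∃ (C : ℕ → ℝ) (θ : ℕ → ℝ → ℝ), (∀ q, 0 ≤ C q) ∧ (∀ q e, 0 < e → 0 < θ q e) ∧
      ∀ (ν : Measure ℝ) [IsProbabilityMeasure ν], κ ≤ vr ν → ∀ lam : ℝ, κ ≤ |lam| →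
        |lam| ≤ 1 / κ → FullC (K + gK f d) lam ν a b ((b - a) / (4 * d)) C θ := by
  have hd' : (0 : ℝ) < d := by exact_mod_cast hd
  have hba : 0 < b - a := by linarith
  obtain ⟨α, hα⟩ : ∃ α, α = 4 * d / (b - a) := ⟨_, rfl⟩
  have hα0 : 0 < α := by rw [hα]; positivity
  obtain ⟨κ₂, hκ₂⟩ : ∃ κ₂, κ₂ = min (α ^ 2 * κ ^ 2) (κ ^ 2 / α ^ 2) := ⟨_, rfl⟩
  have hκ₂0 : 0 < κ₂ := by rw [hκ₂]; positivity
  have hαp : 0 < α ^ p := Real.rpow_pos_of_pos hα0 _
  obtain ⟨ε', hε'⟩ : ∃ ε', ε' = min (ε * α ^ p) (ε * α) := ⟨_, rfl⟩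
  have hε'0 : 0 < ε' := by rw [hε']; positivity
  obtain ⟨f, -, hf1, hf2, C, θ, hC, hθ, hf3⟩ :=
    nor W792.WA.Al.cx W792.WA.Al.uuc W792.WA.Al.scl W792.WA.Al.zf W792.WA.Al.cay
      W792.WA.Al.mzp W792.WA.Al.uni W792.WA.Al.uni2 W792.WA.Al.step2 U281.NP.Al.stepl U281.NP.Al.gapn
      U281.NP.Al.hopm U281.NP.Al.eqd Pool.Agent.W915.WA.WH.main Pool.Agent.W332.WA.WB.main
      W792.WA.Al.wd Pool.Agent.W792.WA.WSP.main W792.WA.Al.fut W792.WA.Al.netx2 W792.WA.Al.qnt2
      W792.WA.Al.gain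
      d (α • (K - ContinuousMap.const _ a)) p g (κ₂ * κ) ε' hd hp1 hp2 hg0 hg (by positivity)
      hε'0
  have hcG : ∀ q, 0 ≤ cG C q := fun q => (hC q).trans (cG_ge hC q)
  have hmn : 0 < min 1 (1 / α ^ 2) := lt_min one_pos (by positivity)
  have hcA : ∀ q, 0 ≤ cA α (cG C) q := by
    intro q
    have := hcG q
    unfold cA
    positivity
  have hθA : ∀ (q : ℕ) (e : ℝ), 0 < θ q (e / α ^ q / 2 ^ q) / α := fun q e =>
    div_pos (hθ _ _) hα0
  refine ⟨α⁻¹ • f, ?_, ?_, cF (cA α (cG C)), fun q e => θ q (e / α ^ q / 2 ^ q) / α,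
    fun q => (hcA q).trans (cF_ge hcA q), fun q e _ => hθA q e, ?_⟩
  · have h1 : ∀ k : UnitAddTorus (Fin d), |(α⁻¹ • f) (lap d k)| ^ p
        = (α ^ p)⁻¹ * |f (lap d k)| ^ p := by
      intro k
      change |α⁻¹ * f (lap d k)| ^ p = _
      rw [abs_mul, abs_of_pos (inv_pos.2 hα0), Real.mul_rpow (inv_pos.2 hα0).le (abs_nonneg _),
        Real.inv_rpow hα0.le]
    simp_rw [h1]
    rw [integral_const_mul, inv_mul_le_iff₀ hαp, mul_comm]
    exact hf1.trans (by rw [hε']; exact min_le_left _ _)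
  · intro x
    have h1 : (fun k : UnitAddTorus (Fin d) => (((α⁻¹ • f) (lap d k) : ℝ) : ℂ))
        = fun k => ((α⁻¹ : ℝ) : ℂ) * ((f (lap d k) : ℝ) : ℂ) := by
      funext k
      change ((α⁻¹ * f (lap d k) : ℝ) : ℂ) = _
      rw [Complex.ofReal_mul]
    rw [h1, mfc_smul, norm_mul, Complex.norm_real, Real.norm_of_nonneg (inv_pos.2 hα0).le]
    have hx : 0 < (1 + ‖x‖) ^ g := Real.rpow_pos_of_pos (by linarith [norm_nonneg x]) _
    calc α⁻¹ * ‖mFourierCoeff (fun k : UnitAddTorus (Fin d) => ((f (lap d k) : ℝ) : ℂ)) x‖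
        ≤ α⁻¹ * (ε' / (1 + ‖x‖) ^ g) := mul_le_mul_of_nonneg_left (hf2 x) (inv_pos.2 hα0).le
      _ ≤ α⁻¹ * (ε * α / (1 + ‖x‖) ^ g) := by
          apply mul_le_mul_of_nonneg_left _ (inv_pos.2 hα0).le
          apply div_le_div_of_nonneg_right _ hx.le
          rw [hε']
          exact min_le_right _ _
      _ = ε / (1 + ‖x‖) ^ g := by field_simp
  · intro ν _ hν lam hl1 hl2
    obtain ⟨c, hc⟩ : ∃ c, c = α * lam := ⟨_, rfl⟩
    have hlam0 : 0 < |lam| := hκ.trans_le hl1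
    have hlam : lam ≠ 0 := abs_pos.1 hlam0
    have hc0 : c ≠ 0 := by rw [hc]; exact mul_ne_zero hα0.ne' hlam
    have hm : Measurable fun x : ℝ => c * x := measurable_const.mul measurable_id
    have i1 : IsProbabilityMeasure (ν.map fun x => c * x) :=
      Measure.isProbabilityMeasure_map hm.aemeasurable
    have hvr := Vrs.main' W792.WA.Al.cay ν c hc0
    have hl3 : κ ^ 2 ≤ lam ^ 2 := by
      rw [← sq_abs lam]
      exact pow_le_pow_left₀ hκ.le hl1 2
    have hl4 : lam ^ 2 * κ ^ 2 ≤ 1 := by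
      rw [← sq_abs lam, ← mul_pow]
      have : |lam| * κ ≤ 1 := by
        rwa [le_div_iff₀ hκ] at hl2
      exact pow_le_one₀ (by positivity) this
    have hmin : κ₂ ≤ min (c ^ 2) (1 / c ^ 2) := by
      have hc2 : 0 < c ^ 2 := by positivity
      refine le_min ?_ ?_
      · refine (show κ₂ ≤ α ^ 2 * κ ^ 2 by rw [hκ₂]; exact min_le_left _ _).trans ?_
        rw [hc, mul_pow]
        exact mul_le_mul_of_nonneg_left hl3 (by positivity)
      · refine (show κ₂ ≤ κ ^ 2 / α ^ 2 by rw [hκ₂]; exact min_le_right _ _).trans ?_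
        rw [div_le_div_iff₀ (by positivity) hc2, hc, mul_pow]
        have : 0 < α ^ 2 := by positivity
        nlinarith
    have hvr2 : κ₂ * κ ≤ vr (ν.map fun x => c * x) := by
      refine le_trans ?_ hvr
      exact mul_le_mul hmin hν hκ.le (hκ₂0.le.trans hmin)
    have h1 := lapGC_of hC (hf3 (ν.map fun x => c * x) hvr2)
    have h3 : α • (K - ContinuousMap.const _ a) + gK f d
        = α • ((K + gK (α⁻¹ • f) d) - ContinuousMap.const _ a) := by
      ext k
      change α * (K k - a) + f (lap d k) = α * ((K k + α⁻¹ * f (lap d k)) - a)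
      field_simp
      ring
    rw [h3] at h1
    have i2 : IsProbabilityMeasure (ν.map fun x => lam * x) :=
      Measure.isProbabilityMeasure_map (by fun_prop)
    have i3 : IsProbabilityMeasure ((ν.map fun x => lam * x).map fun x => α * x) :=
      Measure.isProbabilityMeasure_map (by fun_prop)
    have hmap : (ν.map fun x => c * x) = (ν.map fun x => lam * x).map fun x => α * x := by
      rw [Measure.map_map (by fun_prop) (by fun_prop), hc]
      congr 1
      funext x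
      simp only [Function.comp]
      ring
    have h4 := lapGC_aff hα0 a 0 (4 * d) (K := K + gK (α⁻¹ • f) d) (ν := ν.map fun x => lam * x)
      hcG (LapGC_congr hmap rfl rfl rfl h1)
    have h5 : a + 0 / α = a := by simp
    have h6 : a + 4 * d / α = b := by
      rw [hα]
      field_simp
      ring
    have h7 : 1 / α = (b - a) / (4 * d) := by
      rw [hα]
      field_simp
    have h8 := LapGC_congr (ν := ν.map fun x => lam * x) rfl h5 h6 h7 h4
    exact fullC_of hab (by positivity) hcA hθA h8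

end

end Pool.Agent.U281.LU
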