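import Pool.Agent.U281.LU.Cons
import Pool.Agent.U281.LAP.Site

/-!
From the phase functions to the Green function at the origin, with explicit constants.
-/

set_option autoImplicit false

namespace Pool.Agent.U281.LU

open MeasureTheory Filter Pool.Agent.W792.LL Pool.Agent.W792.WA Pool.Agent.U281.GEN
  Pool.Agent.U281.LAP
open scoped Topology

noncomputable section

variable {d : ℕ}

/-- The estimates for the Green function at the origin, with explicit constants. -/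
def LapGC (K : C(UnitAddTorus (Fin d), ℝ)) (ν : Measure ℝ) [IsProbabilityMeasure ν]
    (a b η₀ : ℝ) (C : ℕ → ℝ) (θ : ℕ → ℝ → ℝ) : Prop := ∀ p : ℕ, 1 ≤ p →
    (∀ z ∈ St a b η₀, ∫ v, ‖gf K 1 v z‖ ^ p ∂(Pn ν (Fin d → ℤ)) ≤ C p) ∧
    (∀ e : ℝ, 0 < e → ∀ z ∈ St a b η₀, ∀ z' ∈ St a b η₀, ‖z - z'‖ ≤ θ p e →
      ∫ v, ‖gf K 1 v z - gf K 1 v z'‖ ^ p ∂(Pn ν (Fin d → ℤ)) ≤ e) ∧
    ∀ z ∈ St a b η₀, ∀ t : ℝ, 0 < t →
      ((Pn ν (Fin d → ℤ)) {v | (1 + v 0 ^ 2) * (gf K 1 v z).im < t}).toReal ≤ C p * t ^ p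

theorem LapGC.lapG {K : C(UnitAddTorus (Fin d), ℝ)} {ν : Measure ℝ} [IsProbabilityMeasure ν]
    {a b η₀ : ℝ} {C : ℕ → ℝ} {θ : ℕ → ℝ → ℝ} (h : LapGC K ν a b η₀ C θ) (hC : ∀ p, 0 ≤ C p)
    (hθ : ∀ p e, 0 < θ p e) : LapG K ν a b η₀ := fun p hp =>
  ⟨⟨C p, (h p hp).1⟩, fun e he => ⟨θ p e, hθ p e, (h p hp).2.1 e he⟩, C p, hC p, (h p hp).2.2⟩

theorem LapGC_congr {K : C(UnitAddTorus (Fin d), ℝ)} {ν ν' : Measure ℝ}
    [IsProbabilityMeasure ν] [IsProbabilityMeasure ν'] {a b η₀ a' b' η₀' : ℝ} {C : ℕ → ℝ}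
    {θ : ℕ → ℝ → ℝ} (h : ν = ν') (ha : a = a') (hb : b = b') (hη : η₀ = η₀')
    (hG : LapGC K ν a b η₀ C θ) : LapGC K ν' a' b' η₀' C θ := by
  subst h ha hb hη
  exact hG

/-- Constants after passing to the Green function. -/
def cG (C : ℕ → ℝ) (p : ℕ) : ℝ := 2 ^ p * (1 + 2 ^ p * C p)

theorem cG_ge {C : ℕ → ℝ} (hC : ∀ p, 0 ≤ C p) (p : ℕ) : C p ≤ cG C p := by
  have h1 := hC p
  have h2 : (1 : ℝ) ≤ 2 ^ p := one_le_pow₀ (by norm_num)
  have h3 : C p ≤ 2 ^ p * C p := le_mul_of_one_le_left h1 h2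
  unfold cG
  nlinarith

/-- Constants after an affine change of the energy. -/
def cA (α : ℝ) (C : ℕ → ℝ) (p : ℕ) : ℝ :=
  α ^ p * C p + C p * (1 / (α * min 1 (1 / α ^ 2))) ^ p

/-- From the phase functions to the Green function. -/
theorem lapGC_of {K : C(UnitAddTorus (Fin d), ℝ)} {ν : Measure ℝ} [IsProbabilityMeasure ν]
    {C : ℕ → ℝ} {θ : ℕ → ℝ → ℝ} (hC : ∀ p, 0 ≤ C p)
    (h : LapC K ν C θ) : LapGC K ν 0 (4 * d) 1 (cG C) (fun p e => θ p (e / 2 ^ p)) := by
  intro p hp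
  obtain ⟨h1, h2, h3⟩ := h p hp
  refine ⟨fun z hz => ?_, fun e he => ?_, fun z hz t ht => ?_⟩
  · have hz2 := hz.2.2.1
    calc ∫ v, ‖gf K 1 v z‖ ^ p ∂(Pn ν (Fin d → ℤ))
        ≤ ∫ v, 2 ^ p * (1 + 2 ^ p
            * ‖Zf (us (Measure.dirac 0) 1 z K) (fun x => cay (v x))‖ ^ p) ∂(Pn ν (Fin d → ℤ)) :=
          integral_mono (gf_int K ν hz2 p)
            (((integrable_const _).add ((zf_pow_int K ν hz2 p).const_mul _)).const_mul _)
            fun v => gf_pow_le K v z p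
      _ = 2 ^ p * (1 + 2 ^ p
            * ∫ v, ‖Zf (us (Measure.dirac 0) 1 z K) (fun x => cay (v x))‖ ^ p
              ∂(Pn ν (Fin d → ℤ))) := by
          rw [integral_const_mul, integral_add (integrable_const _)
            ((zf_pow_int K ν hz2 p).const_mul _), integral_const_mul]
          simp
      _ ≤ 2 ^ p * (1 + 2 ^ p * C p) := by
          gcongr
          exact h1 z hz
  · have hθ1 := h2 (e / 2 ^ p) (by positivity)
    intro z hz z' hz' hzz
    have hz2 := hz.2.2.1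
    have hz2' := hz'.2.2.1
    calc ∫ v, ‖gf K 1 v z - gf K 1 v z'‖ ^ p ∂(Pn ν (Fin d → ℤ))
        ≤ ∫ v, 2 ^ p * ‖Zf (us (Measure.dirac 0) 1 z K) (fun x => cay (v x))
            - Zf (us (Measure.dirac 0) 1 z' K) (fun x => cay (v x))‖ ^ p ∂(Pn ν (Fin d → ℤ)) := by
          refine integral_mono (gf_int_sub K ν hz2 hz2' p)
            ((zf_pow_int_sub K ν hz2 hz2' p).const_mul _) fun v => ?_
          simp only
          rw [← mul_pow, gf_gz, gf_gz]
          exact pow_le_pow_left₀ (norm_nonneg _) (gz_sub Al.cay _ _ v) p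
      _ = 2 ^ p * ∫ v, ‖Zf (us (Measure.dirac 0) 1 z K) (fun x => cay (v x))
            - Zf (us (Measure.dirac 0) 1 z' K) (fun x => cay (v x))‖ ^ p
              ∂(Pn ν (Fin d → ℤ)) := integral_const_mul _ _
      _ ≤ 2 ^ p * (e / 2 ^ p) := by
          gcongr
          exact hθ1 z hz z' hz' hzz
      _ = e := by field_simp
  · have h4 := h3 z.im z.re hz t ht
    have e : {v : (Fin d → ℤ) → ℝ | (1 + v 0 ^ 2) * (gf K 1 v z).im < t}
        = {v | PfK K z.im z.re v < t} := by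
      ext v
      rw [Set.mem_ofPred_eq, Set.mem_ofPred_eq, im_eq]
    rw [e]
    refine h4.trans ?_
    gcongr
    exact cG_ge hC p

theorem lapGC_aff {K : C(UnitAddTorus (Fin d), ℝ)} {ν : Measure ℝ} [IsProbabilityMeasure ν]
    {α : ℝ} (hα : 0 < α) (m a b : ℝ) [IsProbabilityMeasure (ν.map fun x => α * x)]
    {C : ℕ → ℝ} {θ : ℕ → ℝ → ℝ} (hC : ∀ p, 0 ≤ C p)
    (h : LapGC (α • (K - ContinuousMap.const _ m)) (ν.map fun x => α * x) a b 1 C θ) :
    LapGC K ν (m + a / α) (m + b / α) (1 / α) (cA α C) (fun p e => θ p (e / α ^ p) / α) := by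
  obtain ⟨K', hK'⟩ : ∃ K', K' = α • (K - ContinuousMap.const _ m) := ⟨_, rfl⟩
  have hmp := scale_mp (d := d) ν α
  have hst : ∀ z ∈ St (m + a / α) (m + b / α) (1 / α), (α : ℂ) * (z - m) ∈ St a b 1 := by
    rintro z ⟨h1, h2, h3, h4⟩
    have e1 : ((α : ℂ) * (z - m)).re = α * (z.re - m) := by simp
    have e2 : ((α : ℂ) * (z - m)).im = α * z.im := by simp
    refine ⟨?_, ?_, ?_, ?_⟩
    · rw [e1]
      have : a / α ≤ z.re - m := by linarith
      rw [div_le_iff₀ hα] at this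
      linarith
    · rw [e1]
      have : z.re - m ≤ b / α := by linarith
      rw [le_div_iff₀ hα] at this
      linarith
    · rw [e2]; positivity
    · rw [e2]
      rw [le_div_iff₀ hα] at h4
      linarith
  rw [← hK'] at h
  have hgf : ∀ v : (Fin d → ℤ) → ℝ, ∀ z : ℂ, 0 < z.im →
      gf K 1 v z = α * gf K' 1 (fun y => α * v y) (α * (z - m)) := by
    intro v z hz
    rw [hK']
    exact gf_aff K v hα m hz
  have him : ∀ z ∈ St (m + a / α) (m + b / α) (1 / α), 0 < ((α : ℂ) * (z - m)).im :=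
    fun z hz => (hst z hz).2.2.1
  intro p hp
  obtain ⟨h1, h2, h3⟩ := h p hp
  have hCp := hC p
  have hmn : 0 < min 1 (1 / α ^ 2) := lt_min one_pos (by positivity)
  have hp1 : 0 ≤ C p * (1 / (α * min 1 (1 / α ^ 2))) ^ p := by positivity
  have hp2 : 0 ≤ α ^ p * C p := by positivity
  refine ⟨fun z hz => ?_, fun e he => ?_, fun z hz t ht => ?_⟩
  · have hz2 := hz.2.2.1
    have e1 : ∀ v : (Fin d → ℤ) → ℝ, ‖gf K 1 v z‖ ^ p
        = α ^ p * ‖gf K' 1 (fun y => α * v y) (α * (z - m))‖ ^ p := by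
      intro v
      rw [hgf v z hz2, norm_mul, Complex.norm_real, Real.norm_of_nonneg hα.le, mul_pow]
    simp only [e1]
    rw [integral_const_mul]
    have e2 := integral_map (μ := Pn ν (Fin d → ℤ)) hmp.measurable.aemeasurable
      (f := fun v => ‖gf K' 1 v (α * (z - m))‖ ^ p)
      ((gf_meas K' (him z hz)).norm.pow_const p).aestronglyMeasurable
    rw [hmp.map_eq] at e2
    rw [← e2]
    refine (mul_le_mul_of_nonneg_left (h1 _ (hst z hz)) (by positivity)).trans ?_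
    unfold cA
    linarith
  · have hθ1 := h2 (e / α ^ p) (by positivity)
    intro z hz z' hz' hzz
    have hz2 := hz.2.2.1
    have hz2' := hz'.2.2.1
    have e1 : ∀ v : (Fin d → ℤ) → ℝ, ‖gf K 1 v z - gf K 1 v z'‖ ^ p
        = α ^ p * ‖gf K' 1 (fun y => α * v y) (α * (z - m))
          - gf K' 1 (fun y => α * v y) (α * (z' - m))‖ ^ p := by
      intro v
      rw [hgf v z hz2, hgf v z' hz2', ← mul_sub, norm_mul, Complex.norm_real,
        Real.norm_of_nonneg hα.le, mul_pow]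
    simp only [e1]
    rw [integral_const_mul]
    have e2 := integral_map (μ := Pn ν (Fin d → ℤ)) hmp.measurable.aemeasurable
      (f := fun v => ‖gf K' 1 v (α * (z - m)) - gf K' 1 v (α * (z' - m))‖ ^ p)
      (((gf_meas K' (him z hz)).sub (gf_meas K' (him z' hz'))).norm.pow_const
        p).aestronglyMeasurable
    rw [hmp.map_eq] at e2
    rw [← e2]
    have h4 := hθ1 _ (hst z hz) _ (hst z' hz') (by
      rw [← mul_sub, sub_sub_sub_cancel_right, norm_mul, Complex.norm_real,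
        Real.norm_of_nonneg hα.le]
      rw [le_div_iff₀ hα] at hzz
      linarith)
    calc α ^ p * _ ≤ α ^ p * (e / α ^ p) := by gcongr
      _ = e := by field_simp
  · have hz2 := hz.2.2.1
    obtain ⟨c, hc⟩ : ∃ c : ℝ, c = α * min 1 (1 / α ^ 2) := ⟨_, rfl⟩
    have hc0 : 0 < c := by
      rw [hc]
      have : 0 < min 1 (1 / α ^ 2) := lt_min one_pos (by positivity)
      positivity
    have hsub : {v : (Fin d → ℤ) → ℝ | (1 + v 0 ^ 2) * (gf K 1 v z).im < t} ⊆
        (fun (v : (Fin d → ℤ) → ℝ) y => α * v y) ⁻¹'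
          {v | (1 + v 0 ^ 2) * (gf K' 1 v (α * (z - m))).im < t / c} := by
      intro v hv
      rw [Set.mem_ofPred_eq, hgf v z hz2] at hv
      rw [Set.mem_preimage, Set.mem_ofPred_eq, lt_div_iff₀ hc0]
      refine lt_of_le_of_lt ?_ hv
      rw [Complex.im_ofReal_mul]
      have hG0 := (gf_facts K' (fun y => α * v y) (him z hz)).1
      obtain ⟨G, hG⟩ : ∃ G, G = (gf K' 1 (fun y => α * v y) (α * (z - m))).im := ⟨_, rfl⟩
      rw [← hG] at hG0 ⊢
      have h5 : (1 + (α * v 0) ^ 2) * min 1 (1 / α ^ 2) ≤ 1 + v 0 ^ 2 := by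
        have m1 := min_le_left (1 : ℝ) (1 / α ^ 2)
        have m2 := min_le_right (1 : ℝ) (1 / α ^ 2)
        have m3 : α ^ 2 * min 1 (1 / α ^ 2) ≤ 1 := by
          calc α ^ 2 * min 1 (1 / α ^ 2) ≤ α ^ 2 * (1 / α ^ 2) := by gcongr
            _ = 1 := by field_simp
        calc (1 + (α * v 0) ^ 2) * min 1 (1 / α ^ 2)
            = min 1 (1 / α ^ 2) + v 0 ^ 2 * (α ^ 2 * min 1 (1 / α ^ 2)) := by ring
          _ ≤ 1 + v 0 ^ 2 * 1 := by gcongr
          _ = _ := by ring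
      calc (1 + (α * v 0) ^ 2) * G * c
          = α * G * ((1 + (α * v 0) ^ 2) * min 1 (1 / α ^ 2)) := by rw [hc]; ring
        _ ≤ α * G * (1 + v 0 ^ 2) := by gcongr
        _ = _ := by ring
    have hms : MeasurableSet {v : (Fin d → ℤ) → ℝ |
        (1 + v 0 ^ 2) * (gf K' 1 v (α * (z - m))).im < t / c} :=
      measurableSet_lt (((measurable_const.add ((measurable_pi_apply 0).pow_const 2))).mul
        (Complex.measurable_im.comp (gf_meas K' (him z hz)))) measurable_const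
    have h4 := h3 _ (hst z hz) (t / c) (by positivity)
    calc ((Pn ν (Fin d → ℤ)) {v | (1 + v 0 ^ 2) * (gf K 1 v z).im < t}).toReal
        ≤ ((Pn ν (Fin d → ℤ)) ((fun (v : (Fin d → ℤ) → ℝ) y => α * v y) ⁻¹'
          {v | (1 + v 0 ^ 2) * (gf K' 1 v (α * (z - m))).im < t / c})).toReal :=
          ENNReal.toReal_mono (measure_ne_top _ _) (measure_mono hsub)
      _ = ((Pn (ν.map fun x => α * x) (Fin d → ℤ))
          {v | (1 + v 0 ^ 2) * (gf K' 1 v (α * (z - m))).im < t / c}).toReal := by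
          rw [hmp.measure_preimage hms.nullMeasurableSet]
      _ ≤ C p * (t / c) ^ p := h4
      _ = C p * (1 / (α * min 1 (1 / α ^ 2))) ^ p * t ^ p := by
          rw [← hc, div_pow, one_div, inv_pow]
          field_simp
      _ ≤ cA α C p * t ^ p := by
          apply mul_le_mul_of_nonneg_right _ (by positivity)
          unfold cA
          linarith

end

end Pool.Agent.U281.LU
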