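import Pool.Agent.U281.LU.Site
import Pool.Agent.U281.NP.Nor

/-!
The normalized theorem at arbitrary disorder, with uniform limiting absorption.
-/

set_option autoImplicit false

namespace Pool.Agent.U281.LU

open MeasureTheory Filter Set
open scoped Topology
open Pool.Agent.W792.WA Pool.Agent.W792.LL Pool.Agent.W191.LL UnitAddTorus Pool.Agent.N659.HB
open Pool.Agent.U281.NP.Step Pool.Agent.U281.NP.Eqd Pool.Agent.U281.NP.Nor

noncomputable section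

theorem nor (hX : S_CX) (hUU : S_UUC) (hL : S_SCL) (hZ : S_ZF) (hCay : S_CAY)
    (hM : S_MZP) (hU1 : S_UNI) (hU : S_UNI2) (hS : S_STEP2) (hSTEPL : S_STEPL) (hGAP : S_GAPN)
    (hHOP : S_HOPM) (hEQD : S_EQD) (hWH : S_WH) (hWB : S_WB) (hWD : S_WD) (hWS : S_WS)
    (hF : S_FUT) (hNET : S_NETX2) (hQNT : S_QNT2) (hGAIN : S_GAIN)
    (d : ℕ) (K : C(UnitAddTorus (Fin d), ℝ)) (p g κ ε : ℝ) (hd : 0 < d) (hp1 : 1 < p) (hp2 : p < 2)
    (hg0 : 0 ≤ g) (hg1 : g < (d : ℝ) / 3) (hκ : 0 < κ) (hε : 0 < ε) :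
    ∃ f : C(ℝ, ℝ), (∃ B : ℝ, ∀ t, |f t| ≤ B) ∧
      (∫ k : UnitAddTorus (Fin d), |f (lap d k)| ^ p ≤ ε) ∧
      (∀ x : Fin d → ℤ,
        ‖UnitAddTorus.mFourierCoeff (fun k : UnitAddTorus (Fin d) => ((f (lap d k) : ℝ) : ℂ)) x‖
          ≤ ε / (1 + ‖x‖) ^ g) ∧
      ∃ (C : ℕ → ℝ) (θ : ℕ → ℝ → ℝ), (∀ p, 0 ≤ C p) ∧ (∀ p e, 0 < θ p e) ∧
      ∀ (ν : Measure ℝ) [IsProbabilityMeasure ν], κ ≤ vr ν → LapC (K + gK f d) ν C θ := by
  have hd' : (0 : ℝ) < d := by exact_mod_cast hd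
  obtain ⟨ψ, hψ, hψH⟩ := hWH
  obtain ⟨C, hC, hC1⟩ := hWD d ψ hd (hWB ψ hψH)
  -- the first level
  obtain ⟨κ', hκ'⟩ : ∃ κ', κ' = min κ 1 := ⟨_, rfl⟩
  have hκ'0 : 0 < κ' := by rw [hκ']; positivity
  have hκ'1 : κ' ≤ 1 := by rw [hκ']; exact min_le_right _ _
  obtain ⟨ψ₁, R, η, hψ₁, hR, hη, hH₁, hmean, hLp, hgap⟩ :=
    hGAP p κ' (‖K‖ + (4 * d + 1)) (ε / 8) hp1 hp2 hκ'0 hκ'1 (by positivity) (by positivity)
  -- the size of the future levels
  obtain ⟨r, hr⟩ : ∃ r, r = min (1 / 2) (min (ε / 8) (ε / (4 * C))) := ⟨_, rfl⟩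
  have hr0 : 0 < r := by rw [hr]; positivity
  have hr1 : 2 * r ≤ 1 := by
    have : r ≤ 1 / 2 := by rw [hr]; exact min_le_left _ _
    linarith
  have hr2 : 2 * r ≤ ε / 4 := by
    have : r ≤ ε / 8 := by rw [hr]; exact (min_le_right _ _).trans (min_le_left _ _)
    linarith
  have hr3 : 2 * r * C ≤ ε / 2 := by
    have h1 : r ≤ ε / (4 * C) := by rw [hr]; exact (min_le_right _ _).trans (min_le_right _ _)
    rw [le_div_iff₀ (by positivity)] at h1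
    linarith
  -- the laws of the future levels
  obtain ⟨l, hl⟩ : ∃ l : ℕ → ℝ, l = fun n => r * (1 / 16) ^ n := ⟨_, rfl⟩
  have hl0 : ∀ n, 0 < l n := fun n => by rw [hl]; positivity
  have hsum : Summable l := by
    rw [hl]
    exact (summable_geometric_of_lt_one (by norm_num) (by norm_num)).mul_left r
  obtain ⟨ρ, hρ1, hρ2, hρ3, hρ4⟩ := hF ψ hψ l hl0 hsum
  have htail : ∀ n, ∑' j, l (n + j) ≤ 2 * r * (1 / 16) ^ n := by
    intro n
    have h1 : ∀ j, l (n + j) = (r * (1 / 16) ^ n) * (1 / 16) ^ j := by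
      intro j; rw [hl]; simp only []; rw [pow_add]; ring
    simp only [h1]
    rw [tsum_mul_left, tsum_geometric_of_lt_one (by norm_num) (by norm_num)]
    have h2 : 0 < r * (1 / 16 : ℝ) ^ n := by positivity
    have h3 : ((1 : ℝ) - 1 / 16)⁻¹ ≤ 2 := by norm_num
    calc r * (1 / 16 : ℝ) ^ n * (1 - 1 / 16)⁻¹ ≤ r * (1 / 16 : ℝ) ^ n * 2 := by gcongr
      _ = 2 * r * (1 / 16) ^ n := by ring
  have hρ3' : ∀ n, ρ n (Set.Icc (-(2 * r * (1 / 16) ^ n)) (2 * r * (1 / 16) ^ n))ᶜ = 0 := by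
    intro n
    refine measure_mono_null (Set.compl_subset_compl.2 ?_) (hρ3 n)
    have := htail n
    exact Set.Icc_subset_Icc (by linarith) this
  have hρ2' : ∀ n, ρ n = (lev ψ (r * (1 / 16) ^ n)).conv (ρ (n + 1)) := by
    intro n
    have := hρ2 n
    rw [hl] at this
    exact this
  have hρ0 : ρ 0 (Set.Icc (-1) 1)ᶜ = 0 := by
    refine measure_mono_null (Set.compl_subset_compl.2 ?_) (hρ3' 0)
    rw [pow_zero, mul_one]
    exact Set.Icc_subset_Icc (by linarith) hr1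
  have := hρ1 0
  -- the family of laws
  obtain ⟨𝓧, h𝓧⟩ : ∃ 𝓧 : Set MX, 𝓧 = {X | X ∈ Qf ∧ κ' ≤ vr (qlaw X)} := ⟨_, rfl⟩
  have hv : ∀ X ∈ 𝓧, 0 < vr (qlaw X) := by
    intro X hX'
    rw [h𝓧] at hX'
    exact hκ'0.trans_le hX'.2
  have hTB : TB 𝓧 := by
    intro τ hτ
    obtain ⟨F, hF1, hF2⟩ := hNET τ hτ
    refine ⟨F, hF1, fun X hX' => hF2 X ?_⟩
    rw [h𝓧] at hX'
    exact hX'.1
  have hgap1 : ∀ X ∈ 𝓧, ∀ z ∈ Zs d, ∀ s, IsFix (qlaw X) ((lev ψ₁ R).conv (ρ 0)) (wz K z) s →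
      ‖s‖ ≤ 1 - η := by
    intro X hX' z hz s hs
    rw [h𝓧] at hX'
    exact hgap (qlaw X) d K z (ρ 0) hX'.2 hρ0 (by linarith [zs_norm hz]) hz.2.2.1 s hs
  obtain ⟨M₁, hM₁⟩ := hSTEPL d ψ₁ (ρ 0) 1 η R K 𝓧 hd hψ₁ hv hTB hρ0 (hρ4 0) hR hη hgap1 (η / 2)
    (by positivity)
  -- equidistribution
  let h0 : C(UnitAddCircle, ℝ) := ⟨fun t => |R * ψ₁ t| ^ p,
    (continuous_const.mul ψ₁.continuous).abs.rpow_const fun _ => Or.inr (by linarith)⟩
  obtain ⟨M₂, hM₂⟩ := hEQD d h0 hd (ε / 8) (by positivity)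
  obtain ⟨M₃, hM₃⟩ := hHOP d ψ₁ g (ε / (2 * R)) hd hg0 hg1 (by positivity) hH₁ hmean
  obtain ⟨M, hMdef⟩ : ∃ M, M = max M₁ (max M₂ M₃) := ⟨_, rfl⟩
  have hMa : M₁ ≤ M := by rw [hMdef]; exact le_max_left _ _
  have hMb : M₂ ≤ M := by rw [hMdef]; exact (le_max_left _ _).trans (le_max_right _ _)
  have hMc : M₃ ≤ M := by rw [hMdef]; exact (le_max_right _ _).trans (le_max_right _ _)
  -- the gap after the first level
  have hgap2 : ∀ X ∈ 𝓧, ∀ z ∈ Zs d, ∀ s, IsFix (qlaw X) (ρ 0) (wz (addL ψ₁ K R M) z) s →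
      ‖s‖ ≤ 1 - η / 2 := by
    intro X hX' z hz s' hs'
    have := prob_lev ψ₁ R
    obtain ⟨s, hs, -⟩ := (hU1 (qlaw X) d ((lev ψ₁ R).conv (ρ 0)) (1 + R) η K (hv X hX')
      (conv_supp hψ₁ hR hρ0) (conv_two hψ₁ hR) hη (hgap1 X hX')).1 z hz
    have h3 := (hM₁ M hMa X hX' z hz s s' hs hs').1
    have h4 := hgap1 X hX' z hz s hs
    have h5 : ‖s'‖ ≤ ‖s‖ + ‖s - s'‖ := by
      have := norm_sub_le s (s - s')
      rwa [sub_sub_cancel] at this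
    linarith
  obtain ⟨f₂, hf₂, Cc, θc, hCc, hθc, hM2⟩ := chku hX hUU hL hZ hCay hM hU1 hU hS hGAIN ψ hψ d
    (addL ψ₁ K R M) 𝓧 r (η / 2) ρ hρ1 hd hv hTB hr0 (by positivity) hρ2' hρ3' hρ4 hgap2
  have hb2 : ∀ t, |f₂ t| ≤ 2 * r := fun t => G16.IsSum.bound hψ.bound hf₂ t
  have hb1 : ∀ t, |f1 ψ₁ R M t| ≤ R := by
    intro t
    change |R * ψ₁ _| ≤ R
    rw [abs_mul, abs_of_pos hR]
    nlinarith [hψ₁.bound ((M * t / (2 * Real.pi) : ℝ) : UnitAddCircle)]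
  refine ⟨f1 ψ₁ R M + f₂, ⟨R + 2 * r, fun t => ?_⟩, ?_, ?_, Cc, θc, hCc, hθc, ?_⟩
  · exact (abs_add_le _ _).trans (add_le_add (hb1 t) (hb2 t))
  · -- the size in `L^p`
    have c1 : Continuous fun k : UnitAddTorus (Fin d) => |f1 ψ₁ R M (lap d k)| ^ p :=
      ((f1 ψ₁ R M).continuous.comp (lap d).continuous).abs.rpow_const fun _ => Or.inr (by linarith)
    have c2 : Continuous fun k : UnitAddTorus (Fin d) => |f₂ (lap d k)| ^ p :=
      (f₂.continuous.comp (lap d).continuous).abs.rpow_const fun _ => Or.inr (by linarith)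
    have c3 : Continuous fun k : UnitAddTorus (Fin d) => |(f1 ψ₁ R M + f₂) (lap d k)| ^ p :=
      ((f1 ψ₁ R M + f₂).continuous.comp (lap d).continuous).abs.rpow_const
        fun _ => Or.inr (by linarith)
    have e1 : ∫ k : UnitAddTorus (Fin d), |f1 ψ₁ R M (lap d k)| ^ p ≤ ε / 4 := by
      have h1 := hM₂ M hMb
      have h2 : ∫ φ in Set.Ioc (0 : ℝ) 1, h0 (φ : UnitAddCircle) ≤ ε / 8 := hLp
      have h3 : ∫ k : UnitAddTorus (Fin d), h0 ((M * lap d k / (2 * Real.pi) : ℝ) : UnitAddCircle)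
          = ∫ k : UnitAddTorus (Fin d), |f1 ψ₁ R M (lap d k)| ^ p := rfl
      rw [h3] at h1
      linarith [(abs_le.1 h1).2]
    have e2 : ∫ k : UnitAddTorus (Fin d), |f₂ (lap d k)| ^ p ≤ ε / 4 := by
      have h1 : ∀ k : UnitAddTorus (Fin d), |f₂ (lap d k)| ^ p ≤ ε / 4 := by
        intro k
        calc |f₂ (lap d k)| ^ p ≤ (2 * r) ^ p :=
              Real.rpow_le_rpow (abs_nonneg _) (hb2 _) (by linarith)
          _ ≤ (2 * r) ^ (1 : ℝ) :=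
              Real.rpow_le_rpow_of_exponent_ge (by positivity) hr1 hp1.le
          _ = 2 * r := Real.rpow_one _
          _ ≤ ε / 4 := hr2
      calc ∫ k : UnitAddTorus (Fin d), |f₂ (lap d k)| ^ p
          ≤ ∫ _k : UnitAddTorus (Fin d), ε / 4 :=
            integral_mono (cont_int c2) (integrable_const _) h1
        _ = ε / 4 := by simp
    calc ∫ k : UnitAddTorus (Fin d), |(f1 ψ₁ R M + f₂) (lap d k)| ^ p
        ≤ ∫ k : UnitAddTorus (Fin d), 2 * (|f1 ψ₁ R M (lap d k)| ^ p + |f₂ (lap d k)| ^ p) :=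
          integral_mono (cont_int c3) (((cont_int c1).add (cont_int c2)).const_mul 2)
            fun k => rp hp1 hp2
      _ = 2 * ((∫ k : UnitAddTorus (Fin d), |f1 ψ₁ R M (lap d k)| ^ p)
          + ∫ k : UnitAddTorus (Fin d), |f₂ (lap d k)| ^ p) := by
          rw [integral_const_mul, integral_add (cont_int c1) (cont_int c2)]
      _ ≤ ε := by linarith
  · -- hopping amplitudes
    intro x
    have c1 : Continuous fun k : UnitAddTorus (Fin d) =>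
        ((ψ₁ ((M * lap d k / (2 * Real.pi) : ℝ) : UnitAddCircle) : ℝ) : ℂ) := by
      have h : Continuous fun k : UnitAddTorus (Fin d) =>
          ((M * lap d k / (2 * Real.pi) : ℝ) : UnitAddCircle) :=
        (AddCircle.continuous_mk' (1 : ℝ)).comp (by fun_prop)
      exact Complex.continuous_ofReal.comp (ψ₁.continuous.comp h)
    have c2 : Continuous fun k : UnitAddTorus (Fin d) => ((f₂ (lap d k) : ℝ) : ℂ) :=
      Complex.continuous_ofReal.comp (f₂.continuous.comp (lap d).continuous)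
    have e0 : (fun k : UnitAddTorus (Fin d) => (((f1 ψ₁ R M + f₂) (lap d k) : ℝ) : ℂ))
        = fun k => (R : ℂ) * ((ψ₁ ((M * lap d k / (2 * Real.pi) : ℝ) : UnitAddCircle) : ℝ) : ℂ)
          + ((f₂ (lap d k) : ℝ) : ℂ) := by
      funext k
      rw [ContinuousMap.add_apply, Complex.ofReal_add]
      congr 1
      change ((R * ψ₁ _ : ℝ) : ℂ) = _
      rw [Complex.ofReal_mul]
    rw [e0, mfc_add (fun k : UnitAddTorus (Fin d) => (R : ℂ)
      * ((ψ₁ ((M * lap d k / (2 * Real.pi) : ℝ) : UnitAddCircle) : ℝ) : ℂ))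
      (fun k => ((f₂ (lap d k) : ℝ) : ℂ)) (continuous_const.mul c1) c2 x, mfc_smul]
    have b1 := hM₃ M hMc x
    have b2 := hWS d ψ C (2 * r) f₂ hd hC.le (by positivity) hC1 hf₂ x
    have hx0 : (1 : ℝ) ≤ 1 + ‖x‖ := by linarith [norm_nonneg x]
    have hxg : 0 < (1 + ‖x‖) ^ g := Real.rpow_pos_of_pos (by linarith) _
    have b3 : 2 * r * C / (1 + ‖x‖) ^ ((d : ℝ) / 3) ≤ ε / 2 / (1 + ‖x‖) ^ g :=
      div_le_div₀ (by positivity) hr3 hxg
        (Real.rpow_le_rpow_of_exponent_le hx0 hg1.le)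
    refine (norm_add_le _ _).trans ?_
    rw [norm_mul, Complex.norm_real, Real.norm_of_nonneg hR.le]
    have b4 : R * ‖mFourierCoeff (fun k : UnitAddTorus (Fin d) =>
        ((ψ₁ ((M * lap d k / (2 * Real.pi) : ℝ) : UnitAddCircle) : ℝ) : ℂ)) x‖
        ≤ ε / 2 / (1 + ‖x‖) ^ g := by
      calc _ ≤ R * (ε / (2 * R) / (1 + ‖x‖) ^ g) := mul_le_mul_of_nonneg_left b1 hR.le
        _ = ε / 2 / (1 + ‖x‖) ^ g := by field_simp
    calc _ ≤ ε / 2 / (1 + ‖x‖) ^ g + ε / 2 / (1 + ‖x‖) ^ g := add_le_add b4 (b2.trans b3)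
      _ = ε / (1 + ‖x‖) ^ g := by ring
  · -- spectral measures
    intro ν _ hν
    obtain ⟨X, hXQ, hXν⟩ := hQNT ν
    have hX𝓧 : X ∈ 𝓧 := by
      rw [h𝓧]
      refine ⟨hXQ, ?_⟩
      rw [hXν]
      exact (by rw [hκ']; exact min_le_left _ _ : κ' ≤ κ).trans hν
    have hme := (hM2 X hX𝓧).2
    have hKK : addL ψ₁ K R M + gK f₂ d = K + gK (f1 ψ₁ R M + f₂) d := by
      ext k
      simp only [ContinuousMap.add_apply, gK, ContinuousMap.comp_apply]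
      change (K k + R * ψ₁ _) + f₂ (lap d k) = K k + (R * ψ₁ _ + f₂ (lap d k))
      ring
    rw [hKK] at hme
    exact LapC_congr hXν hme

end

end Pool.Agent.U281.LU
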