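import Pool.Agent.U281.LU.Site

/-!
Off-diagonal elements of the resolvent: they grow at most logarithmically if the diagonal elements
are bounded.
-/

set_option autoImplicit false

namespace Pool.Agent.U281.LU

open MeasureTheory Filter Pool.Agent.W792.LL Pool.Agent.W792.WA Pool.Agent.U281.GEN
  Pool.Agent.W19.WAPsi Pool.Agent.U281.LAP
open scoped Topology

noncomputable section

variable {d : ℕ}

/-- The resolvent as a bounded operator. -/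
def GvL (K : C(UnitAddTorus (Fin d), ℝ)) (v : (Fin d → ℤ) → ℝ) (z : ℂ) :
    l2 (Fin d → ℤ) →L[ℂ] l2 (Fin d → ℤ) :=
  (Complex.I / 2) • ((1 - dc v) * rsv (us (Measure.dirac 0) 1 z K) v
    * (1 - opr (us (Measure.dirac 0) 1 z K)))

theorem GvL_apply (K : C(UnitAddTorus (Fin d), ℝ)) (v : (Fin d → ℤ) → ℝ) (z : ℂ)
    (f : l2 (Fin d → ℤ)) : GvL K v z f = Gv K v z f := rfl

/-- The rows of the resolvent. -/
theorem exists_row (K : C(UnitAddTorus (Fin d), ℝ)) (v : (Fin d → ℤ) → ℝ) {z : ℂ}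
    (hz : 0 < z.im) (x : Fin d → ℤ) : ∃ C : l2 (Fin d → ℤ),
    (∀ f, Gv K v z f x = inner ℂ C f) ∧ z.im * ‖C‖ ^ 2 = (Gv K v z (dl x) x).im := by
  obtain ⟨C, hC⟩ : ∃ C, C = ContinuousLinearMap.adjoint (GvL K v z) (dl x) := ⟨_, rfl⟩
  have h1 : ∀ f, Gv K v z f x = inner ℂ C f := by
    intro f
    rw [hC, ContinuousLinearMap.adjoint_inner_left, GvL_apply]
    exact coord_inner x _
  have hcd : ∀ (W : l2 (Fin d → ℤ)) (y : Fin d → ℤ),
      (inner ℂ W (dl y) : ℂ) = (starRingEnd ℂ) (W y) := by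
    intro W y
    rw [← inner_conj_symm, coord_inner y W]
    rfl
  have hW : IsW K v ((starRingEnd ℂ) z) (dl x) C := by
    intro y
    have h2 : IsW K v z (opr (cR K) (dl y) - z • dl y + (v y : ℂ) • dl y) (dl y) := by
      intro w
      simp only [lp.coeFn_sub, lp.coeFn_add, lp.coeFn_smul, Pi.sub_apply, Pi.add_apply,
        Pi.smul_apply, smul_eq_mul, dl_at]
      by_cases hwy : w = y
      · subst hwy; simp; ring
      · simp [hwy]
    have h3 := isW_eq hz h2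
    have h4 := h1 (opr (cR K) (dl y) - z • dl y + (v y : ℂ) • dl y)
    rw [← h3, dl_at, inner_add_right, inner_sub_right, inner_smul_right, inner_smul_right,
      ← T_symm Al.symb, hcd, hcd] at h4
    have h5 := congrArg (starRingEnd ℂ) h4
    simp only [map_add, map_sub, map_mul, Complex.conj_conj, Complex.conj_ofReal] at h5
    have h6 : (starRingEnd ℂ) (if x = y then (1 : ℂ) else 0) = if y = x then 1 else 0 := by
      by_cases hxy : x = y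
      · subst hxy; simp
      · rw [if_neg hxy, if_neg (Ne.symm hxy), map_zero]
    rw [h6] at h5
    simp only [lp.coeFn_sub, lp.coeFn_add, lp.coeFn_smul, Pi.sub_apply, Pi.add_apply,
      Pi.smul_apply, smul_eq_mul, dl_at]
    linear_combination (-1 : ℂ) * h5
  refine ⟨C, h1, ?_⟩
  have h7 := green_id K v ((starRingEnd ℂ) z) hW hW
  rw [h1 (dl x)]
  have e0 : (inner ℂ (dl x) C : ℂ) = C x := (coord_inner x C).symm
  rw [Complex.conj_conj, e0, hcd, inn_self] at h7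
  rw [hcd]
  have h8 := congrArg Complex.im h7
  rw [Complex.add_im, Complex.add_im, Complex.im_mul_ofReal, Complex.im_mul_ofReal,
    Complex.conj_im, Complex.conj_im] at h8
  rw [Complex.conj_im]
  linarith

/-- Resolvent identity. -/
theorem rid (K : C(UnitAddTorus (Fin d), ℝ)) (v : (Fin d → ℤ) → ℝ) {z w : ℂ}
    (hz : 0 < z.im) (hw : 0 < w.im) (f : l2 (Fin d → ℤ)) :
    Gv K v z f - Gv K v w f = (z - w) • Gv K v z (Gv K v w f) := by
  have hA := isW_Gv K v hz f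
  have hB := isW_Gv K v hw f
  have h1 : IsW K v z ((z - w) • Gv K v w f) (Gv K v z f - Gv K v w f) := by
    intro x
    have a1 := hA x
    have a2 := hB x
    simp only [map_sub, lp.coeFn_sub, lp.coeFn_add, lp.coeFn_smul, Pi.sub_apply, Pi.add_apply,
      Pi.smul_apply, smul_eq_mul] at a1 a2 ⊢
    linear_combination a1 - a2
  rw [isW_eq hz h1, ← GvL_apply, ← GvL_apply, ← GvL_apply, map_smul]

/-- One halving of the imaginary part. -/
theorem half_step (K : C(UnitAddTorus (Fin d), ℝ)) (v : (Fin d → ℤ) → ℝ) {E s : ℝ}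
    (hs : 0 < s) (x y : Fin d → ℤ) :
    ‖Gv K v ⟨E, 2 * s⟩ (dl y) x - Gv K v ⟨E, s⟩ (dl y) x‖
      ≤ ‖Gv K v ⟨E, 2 * s⟩ (dl x) x‖ + ‖Gv K v ⟨E, s⟩ (dl y) y‖ := by
  have hz : 0 < (⟨E, 2 * s⟩ : ℂ).im := by
    change 0 < 2 * s
    positivity
  have hw : 0 < (⟨E, s⟩ : ℂ).im := hs
  obtain ⟨C, hC1, hC2⟩ := exists_row K v hz x
  have h1 := rid K v hz hw (dl y)
  have h2 : Gv K v ⟨E, 2 * s⟩ (dl y) x - Gv K v ⟨E, s⟩ (dl y) x
      = (⟨E, 2 * s⟩ - ⟨E, s⟩ : ℂ) * inner ℂ C (Gv K v ⟨E, s⟩ (dl y)) := by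
    rw [← hC1]
    have h3 := congrArg (fun u : l2 (Fin d → ℤ) => u x) h1
    simp only [lp.coeFn_sub, lp.coeFn_smul, Pi.sub_apply, Pi.smul_apply, smul_eq_mul] at h3
    exact h3
  have h4 : (⟨E, 2 * s⟩ - ⟨E, s⟩ : ℂ) = (s : ℂ) * Complex.I := by
    apply Complex.ext
    · simp
    · simp; ring
  have h5 := im_norm K v hw y
  have h6 : (Gv K v ⟨E, 2 * s⟩ (dl x) x).im ≤ ‖Gv K v ⟨E, 2 * s⟩ (dl x) x‖ :=
    (le_abs_self _).trans (Complex.abs_im_le_norm _)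
  have h7 : (Gv K v ⟨E, s⟩ (dl y) y).im ≤ ‖Gv K v ⟨E, s⟩ (dl y) y‖ :=
    (le_abs_self _).trans (Complex.abs_im_le_norm _)
  rw [← hC2] at h6
  rw [← h5] at h7
  have h8 := norm_inner_le_norm (𝕜 := ℂ) C (Gv K v ⟨E, s⟩ (dl y))
  rw [h2, h4, norm_mul, norm_mul, Complex.norm_real, Complex.norm_I, mul_one,
    Real.norm_of_nonneg hs.le]
  obtain ⟨A, hA⟩ : ∃ A, A = ‖C‖ := ⟨_, rfl⟩
  obtain ⟨B, hB⟩ : ∃ B, B = ‖Gv K v ⟨E, s⟩ (dl y)‖ := ⟨_, rfl⟩
  rw [← hA] at h6 h8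
  rw [← hB] at h7 h8
  have h6' : 2 * s * A ^ 2 ≤ ‖Gv K v ⟨E, 2 * s⟩ (dl x) x‖ := h6
  have h7' : s * B ^ 2 ≤ ‖Gv K v ⟨E, s⟩ (dl y) y‖ := h7
  calc s * ‖(inner ℂ C (Gv K v ⟨E, s⟩ (dl y)) : ℂ)‖ ≤ s * (A * B) :=
        mul_le_mul_of_nonneg_left h8 hs.le
    _ ≤ s * (A ^ 2 + B ^ 2) := by
        apply mul_le_mul_of_nonneg_left _ hs.le
        nlinarith [sq_nonneg (A - B), sq_nonneg (A + B)]
    _ ≤ _ := by nlinarith [sq_nonneg A]

/-- Trivial bound. -/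
theorem off_triv (K : C(UnitAddTorus (Fin d), ℝ)) (v : (Fin d → ℤ) → ℝ) {z : ℂ}
    (hz : 0 < z.im) (x y : Fin d → ℤ) : ‖Gv K v z (dl y) x‖ ≤ 1 / z.im := by
  have h1 := im_norm K v hz y
  have h2 : ‖Gv K v z (dl y) y‖ ≤ ‖Gv K v z (dl y)‖ := by
    exact lp.norm_apply_le_norm (by norm_num) _ _
  have h3 : ‖Gv K v z (dl y) x‖ ≤ ‖Gv K v z (dl y)‖ := lp.norm_apply_le_norm (by norm_num) _ _
  have h4 : (Gv K v z (dl y) y).im ≤ ‖Gv K v z (dl y) y‖ :=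
    (le_abs_self _).trans (Complex.abs_im_le_norm _)
  obtain ⟨A, hA⟩ : ∃ A, A = ‖Gv K v z (dl y)‖ := ⟨_, rfl⟩
  rw [← hA] at h1 h2 h3
  refine h3.trans ?_
  have hA0 : 0 ≤ A := by rw [hA]; exact norm_nonneg _
  rw [le_div_iff₀ hz]
  rcases hA0.eq_or_lt with h0 | h0
  · rw [← h0]; simp
  · have h5 : z.im * A ^ 2 ≤ A := by linarith
    have h6 : (A * z.im) * A ≤ 1 * A := by nlinarith
    exact le_of_mul_le_mul_right h6 h0

/-- Telescoping. -/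
theorem off_sum (K : C(UnitAddTorus (Fin d), ℝ)) (v : (Fin d → ℤ) → ℝ) (E : ℝ)
    (x y : Fin d → ℤ) (n : ℕ) : ∀ s : ℝ, 0 < s →
    ‖Gv K v ⟨E, s⟩ (dl y) x‖ ≤ 1 / (2 ^ n * s)
      + ∑ k ∈ Finset.range n, (‖Gv K v ⟨E, 2 ^ (k + 1) * s⟩ (dl x) x‖
        + ‖Gv K v ⟨E, 2 ^ k * s⟩ (dl y) y‖) := by
  induction n with
  | zero =>
    intro s hs
    simp only [pow_zero, one_mul, Finset.range_zero, Finset.sum_empty, add_zero]
    exact off_triv K v (z := ⟨E, s⟩) hs x y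
  | succ n ih =>
    intro s hs
    have h1 := ih (2 * s) (by positivity)
    have h2 := half_step K v (E := E) hs x y
    rw [Finset.sum_range_succ']
    have e1 : ∀ k : ℕ, (2 : ℝ) ^ k * (2 * s) = 2 ^ (k + 1) * s := fun k => by rw [pow_succ]; ring
    simp only [e1] at h1
    have h3 : ‖Gv K v ⟨E, s⟩ (dl y) x‖ ≤ ‖Gv K v ⟨E, 2 * s⟩ (dl y) x‖
        + ‖Gv K v ⟨E, 2 * s⟩ (dl y) x - Gv K v ⟨E, s⟩ (dl y) x‖ := by
      have h4 := norm_sub_le (Gv K v ⟨E, 2 * s⟩ (dl y) x)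
        (Gv K v ⟨E, 2 * s⟩ (dl y) x - Gv K v ⟨E, s⟩ (dl y) x)
      rwa [sub_sub_cancel] at h4
    simp only [zero_add, pow_one, pow_zero, one_mul]
    linarith

end

end Pool.Agent.U281.LU
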