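import Pool.Agent.U281.LU.Off

/-!
Moments of all matrix elements of the resolvent.
-/

set_option autoImplicit false

namespace Pool.Agent.U281.LU

open MeasureTheory Filter Pool.Agent.W792.LL Pool.Agent.W792.WA Pool.Agent.U281.GEN
  Pool.Agent.W19.WAPsi Pool.Agent.U281.LAP
open scoped Topology

noncomputable section

variable {d : ℕ}

theorem jensen (m q : ℕ) (a : ℕ → ℝ) (ha : ∀ i, 0 ≤ a i) :
    (∑ i ∈ Finset.range (m + 1), a i) ^ (q + 1)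
      ≤ ((m : ℝ) + 1) ^ q * ∑ i ∈ Finset.range (m + 1), a i ^ (q + 1) := by
  have hm : (0 : ℝ) < (m : ℝ) + 1 := by positivity
  have h := Real.pow_arith_mean_le_arith_mean_pow (Finset.range (m + 1))
    (fun _ => 1 / ((m : ℝ) + 1)) a (fun _ _ => by positivity) (by
      rw [Finset.sum_const, Finset.card_range, nsmul_eq_mul]
      push_cast
      field_simp) (fun i _ => ha i) (q + 1)
  rw [← Finset.mul_sum, ← Finset.mul_sum, mul_pow] at h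
  have h2 := mul_le_mul_of_nonneg_left h (show 0 ≤ ((m : ℝ) + 1) ^ (q + 1) by positivity)
  calc (∑ i ∈ Finset.range (m + 1), a i) ^ (q + 1)
      = ((m : ℝ) + 1) ^ (q + 1) * ((1 / ((m : ℝ) + 1)) ^ (q + 1)
          * (∑ i ∈ Finset.range (m + 1), a i) ^ (q + 1)) := by
        rw [← mul_assoc, ← mul_pow, mul_one_div_cancel hm.ne', one_pow, one_mul]
    _ ≤ _ := h2
    _ = _ := by
        rw [pow_succ]
        field_simp

/-- The logarithm. -/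
def Lg (η₀ s : ℝ) : ℝ := 1 + Real.log (η₀ / s)

theorem Lg_ge {η₀ s : ℝ} (hs : 0 < s) (h : s ≤ η₀) : 1 ≤ Lg η₀ s := by
  unfold Lg
  have : 0 ≤ Real.log (η₀ / s) := Real.log_nonneg (by rw [le_div_iff₀ hs]; linarith)
  linarith

theorem exists_scale {η₀ s : ℝ} (hs : 0 < s) (h : s ≤ η₀) :
    ∃ n : ℕ, 2 ^ n * s ≤ η₀ ∧ η₀ / 2 < 2 ^ n * s ∧ (n : ℝ) + 1 ≤ 2 * Lg η₀ s := by
  obtain ⟨n, h1, h2⟩ := exists_nat_pow_near (x := η₀ / s) (y := (2 : ℝ))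
    (by rw [le_div_iff₀ hs]; linarith) (by norm_num)
  rw [le_div_iff₀ hs] at h1
  rw [div_lt_iff₀ hs, pow_succ] at h2
  refine ⟨n, h1, by linarith, ?_⟩
  have hη : 0 < η₀ := lt_of_lt_of_le hs h
  have h3 : (2 : ℝ) ^ n ≤ η₀ / s := by rw [le_div_iff₀ hs]; exact h1
  have h4 := Real.log_le_log (by positivity) h3
  rw [Real.log_pow] at h4
  have h5 := Real.log_two_gt_d9
  have h6 : 0 ≤ Real.log (η₀ / s) := Real.log_nonneg (by rw [le_div_iff₀ hs]; linarith)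
  unfold Lg
  have hn : (0 : ℝ) ≤ n := Nat.cast_nonneg n
  nlinarith

/-- Pointwise bound for powers. -/
theorem off_pow (K : C(UnitAddTorus (Fin d), ℝ)) (v : (Fin d → ℤ) → ℝ) (E : ℝ)
    (x y : Fin d → ℤ) (n q : ℕ) {s : ℝ} (hs : 0 < s) :
    ‖Gv K v ⟨E, s⟩ (dl y) x‖ ^ (q + 1) ≤ ((n : ℝ) + 1) ^ q * ((1 / (2 ^ n * s)) ^ (q + 1)
      + ∑ k ∈ Finset.range n, 2 ^ (q + 1) * (‖Gv K v ⟨E, 2 ^ (k + 1) * s⟩ (dl x) x‖ ^ (q + 1)
        + ‖Gv K v ⟨E, 2 ^ k * s⟩ (dl y) y‖ ^ (q + 1))) := by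
  have h1 := off_sum K v E x y n s hs
  obtain ⟨a, ha⟩ : ∃ a : ℕ → ℝ, a = fun i => if i = 0 then 1 / (2 ^ n * s) else
      (‖Gv K v ⟨E, 2 ^ i * s⟩ (dl x) x‖ + ‖Gv K v ⟨E, 2 ^ (i - 1) * s⟩ (dl y) y‖) := ⟨_, rfl⟩
  have ha0 : ∀ i, 0 ≤ a i := by
    intro i
    rw [ha]
    simp only
    split_ifs <;> positivity
  have hsum : ∀ F : ℝ → ℝ, ∑ i ∈ Finset.range (n + 1), F (a i) = F (1 / (2 ^ n * s))
      + ∑ k ∈ Finset.range n, F (‖Gv K v ⟨E, 2 ^ (k + 1) * s⟩ (dl x) x‖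
        + ‖Gv K v ⟨E, 2 ^ k * s⟩ (dl y) y‖) := by
    intro F
    rw [Finset.sum_range_succ', add_comm]
    congr 1
    · rw [ha]; simp
    · refine Finset.sum_congr rfl fun k _ => ?_
      rw [ha]
      simp
  have h2 := jensen n q a ha0
  rw [hsum (fun t => t), hsum (fun t => t ^ (q + 1))] at h2
  refine (pow_le_pow_left₀ (norm_nonneg _) h1 _).trans (h2.trans ?_)
  apply mul_le_mul_of_nonneg_left _ (by positivity)
  gcongr with k _
  have h3 := two_pow_norm (q + 1) ((‖Gv K v ⟨E, 2 ^ (k + 1) * s⟩ (dl x) x‖ : ℝ) : ℂ)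
    ((‖Gv K v ⟨E, 2 ^ k * s⟩ (dl y) y‖ : ℝ) : ℂ)
  rw [← Complex.ofReal_add, Complex.norm_real, Complex.norm_real, Complex.norm_real,
    Real.norm_of_nonneg (by positivity), norm_norm, norm_norm] at h3
  exact h3

end

end Pool.Agent.U281.LU
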