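import Pool.Agent.U281.LU.Off2

/-!
Moments of all matrix elements, negative moments, and the mass near a site.
-/

set_option autoImplicit false

namespace Pool.Agent.U281.LU

open MeasureTheory Filter Pool.Agent.W792.LL Pool.Agent.W792.WA Pool.Agent.U281.GEN
  Pool.Agent.W19.WAPsi Pool.Agent.U281.LAP
open scoped Topology ENNReal

noncomputable section

variable {d : ℕ}

/-- Constants for all matrix elements. -/
def cO (η₀ : ℝ) (C : ℕ → ℝ) (q : ℕ) : ℝ := 2 ^ q * ((2 / η₀) ^ q + 2 ^ (q + 1) * C q)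

variable {K : C(UnitAddTorus (Fin d), ℝ)} {lam : ℝ} {ν : Measure ℝ} [IsProbabilityMeasure ν]
  {a b η₀ : ℝ} {C : ℕ → ℝ} {θ : ℕ → ℝ → ℝ}

/-- Moments of all matrix elements of the resolvent. -/
theorem off_mom (h : FullC K lam ν a b η₀ C θ) (hC : ∀ p, 0 ≤ C p) {q : ℕ} (hq : 1 ≤ q)
    (x y : Fin d → ℤ) {z : ℂ} (hz : z ∈ St a b η₀) :
    Mo ν q (fun ω => Gr K lam ω z x y) (cO η₀ C q * Lg η₀ z.im ^ q) := by
  obtain ⟨r, rfl⟩ : ∃ r, q = r + 1 := ⟨q - 1, by omega⟩
  obtain ⟨E, s⟩ := z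
  obtain ⟨ha, hb, hs, hsη⟩ := hz
  change a ≤ E at ha
  change E ≤ b at hb
  change 0 < s at hs
  change s ≤ η₀ at hsη
  change Mo ν (r + 1) _ (cO η₀ C (r + 1) * Lg η₀ s ^ (r + 1))
  have hη : 0 < η₀ := lt_of_lt_of_le hs hsη
  obtain ⟨n, n1, n2, n3⟩ := exists_scale hs hsη
  have hst : ∀ k ≤ n, (⟨E, 2 ^ k * s⟩ : ℂ) ∈ St a b η₀ := by
    intro k hk
    refine ⟨ha, hb, by change 0 < 2 ^ k * s; positivity, ?_⟩
    change 2 ^ k * s ≤ η₀
    refine le_trans ?_ n1
    gcongr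
    norm_num
  have hd : ∀ k ≤ n, ∀ w : Fin d → ℤ,
      Mo ν (r + 1) (fun ω => Gr K lam ω ⟨E, 2 ^ k * s⟩ w w) (C (r + 1)) :=
    fun k hk w => (h.mom (r + 1) (by omega) w w _ (hst k hk)).1
  have hCr := hC (r + 1)
  -- the dominating function
  obtain ⟨F, hF⟩ : ∃ F : ((Fin d → ℤ) → ℝ) → ℝ, F = fun ω => ((n : ℝ) + 1) ^ r
      * ((1 / (2 ^ n * s)) ^ (r + 1)
      + ∑ k ∈ Finset.range n, 2 ^ (r + 1) * (‖Gr K lam ω ⟨E, 2 ^ (k + 1) * s⟩ y y‖ ^ (r + 1)
        + ‖Gr K lam ω ⟨E, 2 ^ k * s⟩ x x‖ ^ (r + 1))) := ⟨_, rfl⟩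
  have iS : Integrable (fun ω => ∑ k ∈ Finset.range n, 2 ^ (r + 1)
      * (‖Gr K lam ω ⟨E, 2 ^ (k + 1) * s⟩ y y‖ ^ (r + 1)
        + ‖Gr K lam ω ⟨E, 2 ^ k * s⟩ x x‖ ^ (r + 1))) (Pn ν (Fin d → ℤ)) := by
    refine integrable_finsetSum _ fun k hk => ?_
    rw [Finset.mem_range] at hk
    exact ((hd (k + 1) (by omega) y).1.add (hd k (by omega) x).1).const_mul _
  have iF : Integrable F (Pn ν (Fin d → ℤ)) := by
    rw [hF]
    exact ((integrable_const _).add iS).const_mul _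
  have hle : ∀ ω, ‖Gr K lam ω ⟨E, s⟩ x y‖ ^ (r + 1) ≤ F ω := by
    intro ω
    rw [hF]
    exact off_pow K (fun y => lam * ω y) E y x n r hs
  have hm : Measurable fun ω : (Fin d → ℤ) → ℝ => Gr K lam ω ⟨E, s⟩ x y :=
    Gr_meas K lam (z := ⟨E, s⟩) hs x y
  have i0 : Integrable (fun ω => ‖Gr K lam ω ⟨E, s⟩ x y‖ ^ (r + 1)) (Pn ν (Fin d → ℤ)) := by
    refine iF.mono' (hm.norm.pow_const _).aestronglyMeasurable (ae_of_all _ fun ω => ?_)
    rw [Real.norm_of_nonneg (by positivity)]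
    exact hle ω
  refine ⟨i0, (integral_mono i0 iF hle).trans ?_⟩
  have e1 : ∫ ω, F ω ∂(Pn ν (Fin d → ℤ)) = ((n : ℝ) + 1) ^ r * ((1 / (2 ^ n * s)) ^ (r + 1)
      + ∑ k ∈ Finset.range n, 2 ^ (r + 1)
        * (∫ ω, ‖Gr K lam ω ⟨E, 2 ^ (k + 1) * s⟩ y y‖ ^ (r + 1) ∂(Pn ν (Fin d → ℤ))
        + ∫ ω, ‖Gr K lam ω ⟨E, 2 ^ k * s⟩ x x‖ ^ (r + 1) ∂(Pn ν (Fin d → ℤ)))) := by
    rw [hF, integral_const_mul, integral_add (integrable_const _) iS, integral_finsetSum]
    · congr 2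
      · simp
      · refine Finset.sum_congr rfl fun k hk => ?_
        rw [Finset.mem_range] at hk
        rw [integral_const_mul, integral_add (hd (k + 1) (by omega) y).1 (hd k (by omega) x).1]
    · intro k hk
      rw [Finset.mem_range] at hk
      exact ((hd (k + 1) (by omega) y).1.add (hd k (by omega) x).1).const_mul _
  rw [e1]
  have e2 : ∑ k ∈ Finset.range n, 2 ^ (r + 1)
        * (∫ ω, ‖Gr K lam ω ⟨E, 2 ^ (k + 1) * s⟩ y y‖ ^ (r + 1) ∂(Pn ν (Fin d → ℤ))
        + ∫ ω, ‖Gr K lam ω ⟨E, 2 ^ k * s⟩ x x‖ ^ (r + 1) ∂(Pn ν (Fin d → ℤ)))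
      ≤ n * (2 ^ (r + 2) * C (r + 1)) := by
    calc _ ≤ ∑ k ∈ Finset.range n, 2 ^ (r + 2) * C (r + 1) := by
          refine Finset.sum_le_sum fun k hk => ?_
          rw [Finset.mem_range] at hk
          have k1 := (hd (k + 1) (by omega) y).2
          have k2 := (hd k (by omega) x).2
          calc 2 ^ (r + 1) * (_ + _) ≤ 2 ^ (r + 1) * (C (r + 1) + C (r + 1)) := by gcongr
            _ = 2 ^ (r + 2) * C (r + 1) := by rw [pow_succ 2 (r + 1)]; ring
      _ = _ := by rw [Finset.sum_const, Finset.card_range, nsmul_eq_mul]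
  have e3 : (1 / (2 ^ n * s)) ^ (r + 1) ≤ (2 / η₀) ^ (r + 1) := by
    apply pow_le_pow_left₀ (by positivity)
    rw [div_le_div_iff₀ (by positivity) hη]
    linarith
  have hn : (0 : ℝ) ≤ n := Nat.cast_nonneg n
  calc ((n : ℝ) + 1) ^ r * ((1 / (2 ^ n * s)) ^ (r + 1) + _)
      ≤ ((n : ℝ) + 1) ^ r * ((2 / η₀) ^ (r + 1) + n * (2 ^ (r + 2) * C (r + 1))) := by
        gcongr
    _ ≤ ((n : ℝ) + 1) ^ r * (((n : ℝ) + 1) * ((2 / η₀) ^ (r + 1) + 2 ^ (r + 2) * C (r + 1))) := by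
        apply mul_le_mul_of_nonneg_left _ (by positivity)
        have k3 : 0 ≤ (2 / η₀) ^ (r + 1) := by positivity
        have k4 : 0 ≤ 2 ^ (r + 2) * C (r + 1) := by positivity
        nlinarith
    _ = ((n : ℝ) + 1) ^ (r + 1) * ((2 / η₀) ^ (r + 1) + 2 ^ (r + 2) * C (r + 1)) := by
        rw [pow_succ]; ring
    _ ≤ (2 * Lg η₀ s) ^ (r + 1) * ((2 / η₀) ^ (r + 1) + 2 ^ (r + 2) * C (r + 1)) := by
        gcongr
    _ = _ := by
        unfold cO
        rw [mul_pow]
        ring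

/-- Negative moments from rare small values. -/
theorem neg_mom {Ω : Type} [MeasurableSpace Ω] {P : Measure Ω} [IsProbabilityMeasure P]
    {X : Ω → ℝ} (hX : Measurable X) (hX0 : ∀ ω, 0 < X ω) {C : ℝ} (hC : 0 ≤ C)
    (h : ∀ t : ℝ, 0 < t → P {ω | X ω < t} ≤ ENNReal.ofReal (C * t ^ 3)) :
    ∫⁻ ω, ENNReal.ofReal (1 / X ω ^ 2) ∂P ≤ ENNReal.ofReal (1 + 8 * C) := by
  have hpt : ∀ ω, ENNReal.ofReal (1 / X ω ^ 2) ≤ 1 + ∑' k : ℕ, (4 : ENNReal) ^ (k + 1)
      * Set.indicator {ω | X ω < (1 / 2) ^ k} 1 ω := by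
    intro ω
    have h0 := hX0 ω
    rcases le_or_gt 1 (X ω) with h1 | h1
    · refine le_trans ?_ le_self_add
      rw [← ENNReal.ofReal_one]
      apply ENNReal.ofReal_le_ofReal
      rw [div_le_one (by positivity)]
      exact one_le_pow₀ h1
    · obtain ⟨k, k1, k2⟩ := exists_nat_pow_near_of_lt_one h0 h1.le (y := (1 / 2 : ℝ))
        (by norm_num) (by norm_num)
      -- `(1/2)^(k+1) < X ≤ (1/2)^k`
      rcases k2.lt_or_eq with k3 | k3
      · refine le_trans ?_ (le_add_self)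
        refine le_trans ?_ (ENNReal.le_tsum k)
        rw [Set.indicator_of_mem (show ω ∈ {ω | X ω < (1 / 2) ^ k} from k3), Pi.one_apply, mul_one]
        have e : (4 : ENNReal) ^ (k + 1) = ENNReal.ofReal (4 ^ (k + 1)) := by
          rw [ENNReal.ofReal_pow (by norm_num)]
          norm_num
        rw [e]
        apply ENNReal.ofReal_le_ofReal
        rw [div_le_iff₀ (by positivity)]
        have e2 : (4 : ℝ) ^ (k + 1) * ((1 / 2) ^ (k + 1)) ^ 2 = 1 := by
          rw [← pow_mul, mul_comm (k + 1) 2, pow_mul, ← mul_pow]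
          norm_num
        rw [← e2]
        gcongr
      · have hk : k ≠ 0 := by
          rintro rfl
          rw [pow_zero] at k3
          linarith
        obtain ⟨j, rfl⟩ : ∃ j, k = j + 1 := ⟨k - 1, by omega⟩
        have k4 : X ω < (1 / 2) ^ j := by
          rw [k3, pow_succ]
          have : 0 < (1 / 2 : ℝ) ^ j := by positivity
          linarith
        refine le_trans ?_ (le_add_self)
        refine le_trans ?_ (ENNReal.le_tsum j)
        rw [Set.indicator_of_mem (show ω ∈ {ω | X ω < (1 / 2) ^ j} from k4), Pi.one_apply, mul_one]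
        have e : (4 : ENNReal) ^ (j + 1) = ENNReal.ofReal (4 ^ (j + 1)) := by
          rw [ENNReal.ofReal_pow (by norm_num)]
          norm_num
        rw [e]
        apply ENNReal.ofReal_le_ofReal
        rw [div_le_iff₀ (by positivity), k3]
        have e2 : (4 : ℝ) ^ (j + 1) * ((1 / 2) ^ (j + 1)) ^ 2 = 1 := by
          rw [← pow_mul, mul_comm (j + 1) 2, pow_mul, ← mul_pow]
          norm_num
        rw [e2]
  have hms : ∀ k : ℕ, MeasurableSet {ω | X ω < (1 / 2) ^ k} := fun k =>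
    measurableSet_lt hX measurable_const
  calc ∫⁻ ω, ENNReal.ofReal (1 / X ω ^ 2) ∂P
      ≤ ∫⁻ ω, (1 + ∑' k : ℕ, (4 : ENNReal) ^ (k + 1)
          * Set.indicator {ω | X ω < (1 / 2) ^ k} 1 ω) ∂P := lintegral_mono hpt
    _ = 1 + ∑' k : ℕ, (4 : ENNReal) ^ (k + 1) * P {ω | X ω < (1 / 2) ^ k} := by
        rw [lintegral_add_left measurable_const, lintegral_const, measure_univ, one_mul,
          lintegral_tsum]
        · congr 1
          refine tsum_congr fun k => ?_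
          rw [lintegral_const_mul _ (measurable_one.indicator (hms k)),
            lintegral_indicator_one (hms k)]
        · exact fun k => ((measurable_one.indicator (hms k)).const_mul _).aemeasurable
    _ ≤ 1 + ∑' k : ℕ, ENNReal.ofReal (4 * C * (1 / 2) ^ k) := by
        gcongr with k
        calc (4 : ENNReal) ^ (k + 1) * P {ω | X ω < (1 / 2) ^ k}
            ≤ ENNReal.ofReal (4 ^ (k + 1)) * ENNReal.ofReal (C * ((1 / 2) ^ k) ^ 3) := by
              have e : (4 : ENNReal) ^ (k + 1) = ENNReal.ofReal (4 ^ (k + 1)) := by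
                rw [ENNReal.ofReal_pow (by norm_num)]
                norm_num
              rw [e]
              gcongr
              exact h _ (by positivity)
          _ = ENNReal.ofReal (4 * C * (1 / 2) ^ k) := by
              rw [← ENNReal.ofReal_mul (by positivity)]
              congr 1
              have e2 : (4 : ℝ) ^ k * ((1 / 2) ^ k) ^ 2 = 1 := by
                rw [← pow_mul, mul_comm k 2, pow_mul, ← mul_pow]
                norm_num
              calc (4 : ℝ) ^ (k + 1) * (C * ((1 / 2) ^ k) ^ 3)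
                  = 4 * C * (1 / 2) ^ k * ((4 : ℝ) ^ k * ((1 / 2) ^ k) ^ 2) := by
                    rw [pow_succ]; ring
                _ = _ := by rw [e2, mul_one]
    _ = 1 + ENNReal.ofReal (8 * C) := by
        have hs : Summable fun k : ℕ => 4 * C * (1 / 2 : ℝ) ^ k :=
          (summable_geometric_of_lt_one (by norm_num) (by norm_num)).mul_left _
        rw [← ENNReal.ofReal_tsum_of_nonneg (fun k => by positivity) hs, tsum_mul_left,
          tsum_geometric_of_lt_one (by norm_num) (by norm_num)]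
        congr 2
        ring
    _ = _ := by
        rw [ENNReal.ofReal_add (by norm_num) (by positivity), ENNReal.ofReal_one]

end

end Pool.Agent.U281.LU
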