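import Pool.Agent.U281.LU.Gr

/-!
All sites, with explicit constants.
-/

set_option autoImplicit false

namespace Pool.Agent.U281.LU

open MeasureTheory Filter Pool.Agent.W792.LL Pool.Agent.W792.WA Pool.Agent.U281.GEN
  Pool.Agent.W19.WAPsi Pool.Agent.U281.LAP
open scoped Topology ENNReal

noncomputable section

variable {d : ℕ}

section

variable {K : C(UnitAddTorus (Fin d), ℝ)} {ν : Measure ℝ} [IsProbabilityMeasure ν]
  {a b η₀ : ℝ} {η : ℕ → ℝ} {C : ℕ → ℝ} {θ : ℕ → ℝ → ℝ}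

/-- Moments of the boundary values. -/
theorem G0_momC (h : LapGC K ν a b η₀ C θ) (hC : ∀ p, 0 ≤ C p) (hθ : ∀ p e, 0 < θ p e)
    (hg : Good K ν a b η₀ η) {p : ℕ} (hp : 1 ≤ p) :
    (∀ E, a ≤ E → E ≤ b →
      Integrable (fun v => ‖G0 K η v E‖ ^ p) (Pn ν (Fin d → ℤ)) ∧
      ∫ v, ‖G0 K η v E‖ ^ p ∂(Pn ν (Fin d → ℤ)) ≤ C p) ∧
      ∀ E, a ≤ E → E ≤ b → ∀ t : ℝ, 0 < t →
        ((Pn ν (Fin d → ℤ)) {v | (1 + v 0 ^ 2) * (G0 K η v E).im < t}).toReal ≤ C p * t ^ p := by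
  have hL := h.lapG hC hθ
  obtain ⟨hη, hη0, hηt, hs⟩ := hg
  obtain ⟨h1, -, h3⟩ := h p hp
  have hCp := hC p
  refine ⟨fun E ha hb => ?_, fun E ha hb t ht => ?_⟩
  · have hfix := G0_fix hL ⟨hη, hη0, hηt, hs⟩ ha hb
    exact lim_pow (X := fun v => G0 K η v E) (V := fun n v => Fg K η n E v) (p := p)
      (G0_joint K hη).of_uncurry_right (fun n => Fg_meas K hη n E)
      (fun n => gf_int K ν (hη n) p (z := ⟨E, η n⟩)) hfix hCp
      (fun n => h1 ⟨E, η n⟩ ⟨ha, hb, hη n, hη0 n⟩)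
  · have hfix := G0_fix hL ⟨hη, hη0, hηt, hs⟩ ha hb
    have h5 : (Pn ν (Fin d → ℤ)) {v | (1 + v 0 ^ 2) * (G0 K η v E).im < t}
        ≤ ENNReal.ofReal (C p * t ^ p) := by
      refine Rf.small_lim (W := fun v => (1 + v 0 ^ 2) * (G0 K η v E).im)
        (V := fun n v => (1 + v 0 ^ 2) * (Fg K η n E v).im)
        (c := ENNReal.ofReal (C p * t ^ p)) ?_ fun n => ?_
      · filter_upwards [hfix] with v hv
        exact ((Complex.continuous_im.tendsto _).comp hv).const_mul _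
      · exact ofReal_toReal_le (measure_ne_top _ _)
          (h3 ⟨E, η n⟩ ⟨ha, hb, hη n, hη0 n⟩ t ht)
    have h6 := ENNReal.toReal_mono ENNReal.ofReal_ne_top h5
    rwa [ENNReal.toReal_ofReal (by positivity)] at h6

/-- Convergence to the boundary values. -/
theorem G0_convC (h : LapGC K ν a b η₀ C θ) (hC : ∀ p, 0 ≤ C p) (hθ : ∀ p e, 0 < θ p e)
    (hg : Good K ν a b η₀ η) {p : ℕ} (hp : 1 ≤ p) {e : ℝ}
    (he : 0 < e) : ∀ z ∈ St a b η₀, z.im ≤ θ p e →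
      Integrable (fun v => ‖gf K 1 v z - G0 K η v z.re‖ ^ p) (Pn ν (Fin d → ℤ)) ∧
      ∫ v, ‖gf K 1 v z - G0 K η v z.re‖ ^ p ∂(Pn ν (Fin d → ℤ)) ≤ e := by
  have hL := h.lapG hC hθ
  obtain ⟨hη, hη0, hηt, hs⟩ := hg
  obtain ⟨-, h2, -⟩ := h p hp
  have hθ1 := h2 e he
  intro z hz hzθ
  obtain ⟨N, hN⟩ := (hηt.eventually_lt_const (hθ p e)).exists_forall_of_atTop
  have hfix := G0_fix hL ⟨hη, hη0, hηt, hs⟩ hz.1 hz.2.1
  have hz2 := hz.2.2.1
  refine lim_pow (X := fun v => gf K 1 v z - G0 K η v z.re)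
    (V := fun n v => gf K 1 v z - Fg K η (n + N) z.re v)
    ((gf_meas K hz2).sub (G0_joint K hη).of_uncurry_right)
    (fun n => (gf_meas K hz2).sub (Fg_meas K hη _ _))
    (fun n => gf_int_sub K ν hz2 (hη (n + N)) p (z' := ⟨z.re, η (n + N)⟩)) ?_ he.le
    (fun n => ?_)
  · filter_upwards [hfix] with v hv
    exact tendsto_const_nhds.sub (hv.comp (tendsto_add_atTop_nat N))
  · refine hθ1 z hz ⟨z.re, η (n + N)⟩ ⟨hz.1, hz.2.1, hη _, hη0 _⟩ ?_
    have e1 : z - ⟨z.re, η (n + N)⟩ = ((z.im - η (n + N) : ℝ) : ℂ) * Complex.I := by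
      apply Complex.ext <;> simp
    rw [e1, norm_mul, Complex.norm_I, mul_one, Complex.norm_real, Real.norm_eq_abs, abs_le]
    have := hN (n + N) (by omega)
    have := hη (n + N)
    constructor <;> linarith

end

section

variable {ν : Measure ℝ} [IsProbabilityMeasure ν] {lam : ℝ}
  [IsProbabilityMeasure (ν.map fun t => lam * t)]

/-- The full statement for an operator `K + lam V`, with constants. -/
structure FullC (K : C(UnitAddTorus (Fin d), ℝ)) (lam : ℝ) (ν : Measure ℝ)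
    [IsProbabilityMeasure ν] (a b η₀ : ℝ) (C : ℕ → ℝ) (θ : ℕ → ℝ → ℝ) : Prop where
  mom : ∀ p : ℕ, 1 ≤ p → ∀ (x y : Fin d → ℤ), ∀ z ∈ St a b η₀,
    Mo ν p (fun ω => Gr K lam ω z x x) (C p) ∧ Mo ν p (fun ω => Ti K lam ω z x y) (C p)
  cont : ∀ (p : ℕ) (e : ℝ), 1 ≤ p → 0 < e → ∀ x : Fin d → ℤ,
    ∀ z ∈ St a b η₀, ∀ z' ∈ St a b η₀, ‖z - z'‖ ≤ θ p e →
      Mo ν p (fun ω => Gr K lam ω z x x - Gr K lam ω z' x x) e
  small : ∀ p : ℕ, 1 ≤ p → ∀ x : Fin d → ℤ, ∀ z ∈ St a b η₀, ∀ t : ℝ, 0 < t →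
    (Pn ν (Fin d → ℤ)) {ω | (1 + (lam * ω x) ^ 2) * (Gr K lam ω z x x).im < t}
      ≤ ENNReal.ofReal (C p * t ^ p)
  bdry : ∃ B : (Fin d → ℤ) → ((Fin d → ℤ) → ℝ) → ℝ → ℂ,
    (∀ x, Measurable (Function.uncurry (B x))) ∧
    (∀ p : ℕ, 1 ≤ p → ∀ (x : Fin d → ℤ) (E : ℝ), a ≤ E → E ≤ b →
      Mo ν p (fun ω => B x ω E) (C p) ∧ ∀ t : ℝ, 0 < t →
        (Pn ν (Fin d → ℤ)) {ω | (1 + (lam * ω x) ^ 2) * (B x ω E).im < t}
          ≤ ENNReal.ofReal (C p * t ^ p)) ∧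
    (∀ (p : ℕ) (e : ℝ), 1 ≤ p → 0 < e → ∀ x : Fin d → ℤ,
      ∀ z ∈ St a b η₀, z.im ≤ θ p e → Mo ν p (fun ω => Gr K lam ω z x x - B x ω z.re) e) ∧
    ∀ᵐ ω ∂(Pn ν (Fin d → ℤ)), ∀ x : Fin d → ℤ,
      (∀ᵐ E ∂(volume.restrict (Set.Ioo a b)), 0 < (B x ω E).im / Real.pi) ∧
      ∃ μ : Measure ℝ, IsFiniteMeasure μ ∧
        (∀ z : ℂ, 0 < z.im → Gr K lam ω z x x = ∫ E : ℝ, 1 / ((E : ℂ) - z) ∂μ) ∧
        μ.restrict (Set.Ioo a b) = (volume.restrict (Set.Ioo a b)).withDensity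
          fun E => ENNReal.ofReal ((B x ω E).im / Real.pi)

/-- Constants for all sites. -/
def cF (C : ℕ → ℝ) (p : ℕ) : ℝ := 2 ^ p * (C p + C p) + C p

theorem cF_ge {C : ℕ → ℝ} (hC : ∀ p, 0 ≤ C p) (p : ℕ) : C p ≤ cF C p := by
  have := hC p
  unfold cF
  have : 0 ≤ 2 ^ p * (C p + C p) := by positivity
  linarith

theorem fullC_of {K : C(UnitAddTorus (Fin d), ℝ)} {a b η₀ : ℝ} (hab : a < b) (h0 : 0 < η₀)
    {C : ℕ → ℝ} {θ : ℕ → ℝ → ℝ} (hC : ∀ p, 0 ≤ C p) (hθ : ∀ p e, 0 < θ p e)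
    (h : LapGC K (ν.map fun t => lam * t) a b η₀ C θ) : FullC K lam ν a b η₀ (cF C) θ := by
  have hL := h.lapG hC hθ
  have hpot0 : ∀ (x : Fin d → ℤ) (ω : (Fin d → ℤ) → ℝ), pot lam x ω 0 = lam * ω x := by
    intro x ω
    unfold pot
    rw [zero_add]
  obtain ⟨η, hg⟩ := exists_good h0 hL
  have hη := hg.1
  refine ⟨fun p hp => ?_, fun p e hp he => ?_, fun p hp => ?_, ?_⟩
  · obtain ⟨hC1, -, -⟩ := h p hp
    have hCp := hC p
    have key : ∀ (x : Fin d → ℤ), ∀ z ∈ St a b η₀,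
        Mo ν p (fun ω => gf K 1 (pot lam x ω) z) (C p) :=
      fun x z hz => Mo_pot ν lam x (F := fun v => gf K 1 v z) (gf_meas K hz.2.2.1)
        ⟨gf_int K _ hz.2.2.1 p, hC1 z hz⟩
    refine fun x y z hz => ⟨?_, ?_⟩
    · simp only [Gr_diag K lam _ hz.2.2.1 x]
      exact (key x z hz).mono (cF_ge hC p)
    · have k1 := key x z hz
      have k2 := key y z hz
      have hb : ∀ ω, ‖Ti K lam ω z x y‖ ^ p ≤ 2 ^ p * (‖gf K 1 (pot lam x ω) z‖ ^ p
          + ‖gf K 1 (pot lam y ω) z‖ ^ p) := by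
        intro ω
        refine (pow_le_pow_left₀ (norm_nonneg _) (Ti_le K lam ω hz.2.2.1 x y) p).trans ?_
        have h2 := two_pow_norm p ((‖gf K 1 (pot lam x ω) z‖ : ℝ) : ℂ)
          ((‖gf K 1 (pot lam y ω) z‖ : ℝ) : ℂ)
        rw [← Complex.ofReal_add, Complex.norm_real, Complex.norm_real, Complex.norm_real,
          Real.norm_of_nonneg (by positivity), norm_norm, norm_norm] at h2
        exact h2
      have i0 : Integrable (fun ω => 2 ^ p * (‖gf K 1 (pot lam x ω) z‖ ^ p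
          + ‖gf K 1 (pot lam y ω) z‖ ^ p)) (Pn ν (Fin d → ℤ)) := (k1.1.add k2.1).const_mul _
      have i1 : Integrable (fun ω => ‖Ti K lam ω z x y‖ ^ p) (Pn ν (Fin d → ℤ)) := by
        refine i0.mono' ((Ti_meas K lam hz.2.2.1 x y).norm.pow_const p).aestronglyMeasurable
          (ae_of_all _ fun ω => ?_)
        rw [Real.norm_of_nonneg (by positivity)]
        exact hb ω
      refine ⟨i1, ?_⟩
      calc ∫ ω, ‖Ti K lam ω z x y‖ ^ p ∂(Pn ν (Fin d → ℤ))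
          ≤ ∫ ω, 2 ^ p * (‖gf K 1 (pot lam x ω) z‖ ^ p + ‖gf K 1 (pot lam y ω) z‖ ^ p)
              ∂(Pn ν (Fin d → ℤ)) := integral_mono i1 i0 hb
        _ = 2 ^ p * (∫ ω, ‖gf K 1 (pot lam x ω) z‖ ^ p ∂(Pn ν (Fin d → ℤ))
              + ∫ ω, ‖gf K 1 (pot lam y ω) z‖ ^ p ∂(Pn ν (Fin d → ℤ))) := by
            rw [integral_const_mul, integral_add k1.1 k2.1]
        _ ≤ 2 ^ p * (C p + C p) := by
            have := k1.2
            have := k2.2
            gcongr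
        _ ≤ _ := by
            unfold cF
            linarith
  · obtain ⟨-, h2, -⟩ := h p hp
    have hθ1 := h2 e he
    intro x z hz z' hz' hzz
    simp only [Gr_diag K lam _ hz.2.2.1 x, Gr_diag K lam _ hz'.2.2.1 x]
    exact Mo_pot ν lam x (F := fun v => gf K 1 v z - gf K 1 v z')
      ((gf_meas K hz.2.2.1).sub (gf_meas K hz'.2.2.1))
      ⟨gf_int_sub K _ hz.2.2.1 hz'.2.2.1 p, hθ1 z hz z' hz' hzz⟩
  · obtain ⟨-, -, h3⟩ := h p hp
    intro x z hz t ht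
    have h4 := prob_pot ν lam x (F := fun v => (1 + v 0 ^ 2) * (gf K 1 v z).im)
      (((measurable_const.add ((measurable_pi_apply 0).pow_const 2))).mul
        (Complex.measurable_im.comp (gf_meas K hz.2.2.1))) (h3 z hz t ht)
    simp only [hpot0] at h4
    simp only [Gr_diag K lam _ hz.2.2.1 x]
    refine h4.trans (ENNReal.ofReal_le_ofReal ?_)
    exact mul_le_mul_of_nonneg_right (cF_ge hC p) (by positivity)
  · refine ⟨fun x ω E => G0 K η (pot lam x ω) E, fun x => ?_, fun p hp => ?_,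
      fun p e hp he => ?_, ?_⟩
    · exact G0_pot K hη lam x
    · obtain ⟨m1, m2⟩ := G0_momC h hC hθ hg hp
      refine fun x E ha hb => ⟨?_, fun t ht => ?_⟩
      · exact (Mo_pot ν lam x (F := fun v => G0 K η v E) (G0_joint K hη).of_uncurry_right
          (m1 E ha hb)).mono (cF_ge hC p)
      · have h4 := prob_pot ν lam x (F := fun v => (1 + v 0 ^ 2) * (G0 K η v E).im)
          (((measurable_const.add ((measurable_pi_apply 0).pow_const 2))).mul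
            (Complex.measurable_im.comp (G0_joint K hη).of_uncurry_right)) (m2 E ha hb t ht)
        simp only [hpot0] at h4
        refine h4.trans (ENNReal.ofReal_le_ofReal ?_)
        exact mul_le_mul_of_nonneg_right (cF_ge hC p) (by positivity)
    · have h1 := G0_convC h hC hθ hg hp he
      intro x z hz hzθ
      simp only [Gr_diag K lam _ hz.2.2.1 x]
      exact Mo_pot ν lam x (F := fun v => gf K 1 v z - G0 K η v z.re)
        ((gf_meas K hz.2.2.1).sub (G0_joint K hη).of_uncurry_right) (h1 z hz hzθ)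
    · rw [ae_all_iff]
      intro x
      have h1 := (pot_mp (d := d) ν lam x).quasiMeasurePreserving.ae (G0_density hab hL hg)
      filter_upwards [h1] with ω hω
      refine ⟨hω.1, ?_⟩
      obtain ⟨μ, hμ, hμs⟩ := Al.spmu d K (pot lam x ω)
      have hz : ∀ z : ℂ, 0 < z.im → gf K 1 (pot lam x ω) z = ∫ E : ℝ, 1 / ((E : ℂ) - z) ∂μ := by
        intro z hz
        obtain ⟨w, hw, hw0⟩ := gf_sol K (pot lam x ω) hz
        rw [← hw0]
        exact (hμs z hz).2 w hw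
      refine ⟨μ, hμ, fun z hz' => ?_, hω.2 μ hμ hz⟩
      rw [Gr_diag K lam ω hz' x]
      exact hz z hz'

end

end

end Pool.Agent.U281.LU
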